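import Mathlib

set_option autoImplicit false

namespace Pool.Agent.H29.BoxDrawing

/-- A point of the integer grid, as a point of three-dimensional space. -/
def toReal (p : Fin 3 → ℤ) : Fin 3 → ℝ := fun t => (p t : ℝ)

/-- The grid box `[lo 0, hi 0] × [lo 1, hi 1] × [lo 2, hi 2]` with integer corners. -/
def gridBox (lo hi : Fin 3 → ℤ) : Set (Fin 3 → ℝ) := Set.Icc (toReal lo) (toReal hi)

/-- The surface of a grid box: the points of the box having some coordinate equal to the least or
to the largest possible value of that coordinate. -/
def boxSurface (lo hi : Fin 3 → ℤ) : Set (Fin 3 → ℝ) :=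
  {p | p ∈ gridBox lo hi ∧ ∃ t, p t = (lo t : ℝ) ∨ p t = (hi t : ℝ)}

/-- The polygonal path from the grid point `a` via the grid point `b` to the grid point `c`. -/
def route (a b c : Fin 3 → ℤ) : Set (Fin 3 → ℝ) :=
  segment ℝ (toReal a) (toReal b) ∪ segment ℝ (toReal b) (toReal c)

/-- A three-dimensional orthogonal box-drawing of the graph `G` with at most one bend per edge.
The vertex `v` is the grid box with corners `lo v` and `hi v`.  The route of an edge `uv` goes from
`port u v` on the surface of the box of `u` via `bend u v = bend v u` to `port v u` on the surface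
of the box of `v`; its two segments are parallel to two different coordinate axes (one of them may
have length zero, which gives a route without bends). -/
structure OneBendDrawing {V : Type} (G : SimpleGraph V) where
  /-- lower corners of the boxes -/
  lo : V → Fin 3 → ℤ
  /-- upper corners of the boxes -/
  hi : V → Fin 3 → ℤ
  /-- `port u v` is the end of the route of the edge `uv` at the vertex `u` -/
  port : V → V → Fin 3 → ℤ
  /-- the bend of the route of the edge `uv` -/
  bend : V → V → Fin 3 → ℤ
  lo_le_hi : ∀ v, lo v ≤ hi v
  boxes_disjoint : ∀ u v, u ≠ v → Disjoint (gridBox (lo u) (hi u)) (gridBox (lo v) (hi v))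
  bend_comm : ∀ u v, G.Adj u v → bend u v = bend v u
  port_mem : ∀ u v, G.Adj u v → toReal (port u v) ∈ boxSurface (lo u) (hi u)
  axis_parallel : ∀ u v, G.Adj u v → ∃ i j : Fin 3, i ≠ j ∧
    (∀ t, t ≠ i → port u v t = bend u v t) ∧ (∀ t, t ≠ j → bend u v t = port v u t)
  route_avoids : ∀ u v w, G.Adj u v → ∀ p ∈ route (port u v) (bend u v) (port v u),
    p ≠ toReal (port u v) → p ≠ toReal (port v u) → p ∉ gridBox (lo w) (hi w)
  routes_disjoint : ∀ u v u' v', G.Adj u v → G.Adj u' v' → s(u, v) ≠ s(u', v') →
    Disjoint (route (port u v) (bend u v) (port v u)) (route (port u' v') (bend u' v') (port v' u'))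

/-- The grid box with corners `L` and `H` contains the whole drawing. -/
def OneBendDrawing.InBox {V : Type} {G : SimpleGraph V} (D : OneBendDrawing G)
    (L H : Fin 3 → ℤ) : Prop :=
  (∀ v, gridBox (D.lo v) (D.hi v) ⊆ gridBox L H) ∧
  (∀ u v, G.Adj u v → route (D.port u v) (D.bend u v) (D.port v u) ⊆ gridBox L H)

/-- The volume of a drawing: the least number of grid points in an axis-parallel grid box that
contains the drawing. -/
noncomputable def OneBendDrawing.volume {V : Type} {G : SimpleGraph V} (D : OneBendDrawing G) : ℕ :=
  sInf {N : ℕ | ∃ L H : Fin 3 → ℤ, D.InBox L H ∧ N = (Finset.Icc L H).card}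

/-- `V₁ n` is the minimum volume of a three-dimensional orthogonal box-drawing of the complete
graph on `n` vertices with at most one bend per edge. -/
noncomputable def V₁ (n : ℕ) : ℕ :=
  sInf {N : ℕ | ∃ D : OneBendDrawing (⊤ : SimpleGraph (Fin n)), D.volume = N}

end Pool.Agent.H29.BoxDrawing
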