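import Pool.Agent.H29.BoxDrawingDefs

set_option autoImplicit false

namespace Pool.Agent.H29.BoxDrawing

/-! ### Grid points of boxes and segments -/

lemma mem_gridBox {p lo hi : Fin 3 → ℤ} :
    toReal p ∈ gridBox lo hi ↔ ∀ t, lo t ≤ p t ∧ p t ≤ hi t := by
  unfold gridBox toReal
  rw [Set.mem_Icc, Pi.le_def, Pi.le_def]
  constructor
  · rintro ⟨h1, h2⟩ t
    exact ⟨by exact_mod_cast h1 t, by exact_mod_cast h2 t⟩
  · intro h
    exact ⟨fun t => by exact_mod_cast (h t).1, fun t => by exact_mod_cast (h t).2⟩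

lemma toReal_injective : Function.Injective toReal := by
  intro p q h
  funext t
  have := congrFun h t
  unfold toReal at this
  exact_mod_cast this

/-- A grid point between two grid points that differ in one coordinate only. -/
lemma mem_segment_of_between {a b p : Fin 3 → ℤ} (i : Fin 3)
    (h1 : ∀ t, t ≠ i → a t = b t) (h2 : ∀ t, t ≠ i → p t = a t)
    (h3 : (a i ≤ p i ∧ p i ≤ b i) ∨ (b i ≤ p i ∧ p i ≤ a i)) :
    toReal p ∈ segment ℝ (toReal a) (toReal b) := by
  by_cases hab : a i = b i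
  · have : p = a := by
      funext t
      by_cases ht : t = i
      · subst ht; omega
      · exact h2 t ht
    rw [this]
    exact left_mem_segment ℝ _ _
  · have hab' : ((b i : ℝ) - a i) ≠ 0 := by
      intro h
      apply hab
      have : (b i : ℝ) = a i := by linarith
      exact_mod_cast this.symm
    set θ : ℝ := ((p i : ℝ) - a i) / ((b i : ℝ) - a i) with hθ
    have hθmul : θ * ((b i : ℝ) - a i) = (p i : ℝ) - a i := div_mul_cancel₀ _ hab'
    have hθ01 : 0 ≤ θ ∧ θ ≤ 1 := by
      rcases h3 with ⟨h3, h4⟩ | ⟨h3, h4⟩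
      · have h3' : (a i : ℝ) ≤ p i := by exact_mod_cast h3
        have h4' : (p i : ℝ) ≤ b i := by exact_mod_cast h4
        have hpos : 0 < (b i : ℝ) - a i := lt_of_le_of_ne (by linarith) (Ne.symm hab')
        constructor
        · exact div_nonneg (by linarith) hpos.le
        · rw [hθ, div_le_one hpos]; linarith
      · have h3' : (b i : ℝ) ≤ p i := by exact_mod_cast h3
        have h4' : (p i : ℝ) ≤ a i := by exact_mod_cast h4
        have hneg : (b i : ℝ) - a i < 0 := lt_of_le_of_ne (by linarith) hab'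
        constructor
        · exact div_nonneg_of_nonpos (by linarith) hneg.le
        · rw [hθ, div_le_one_of_neg hneg]; linarith
    refine ⟨1 - θ, θ, by linarith [hθ01.2], hθ01.1, by ring, ?_⟩
    funext t
    simp only [Pi.add_apply, Pi.smul_apply, smul_eq_mul, toReal]
    by_cases ht : t = i
    · subst ht
      linarith
    · rw [h2 t ht, ← h1 t ht]
      ring

lemma mem_segment_coord {a b : Fin 3 → ℤ} {p : Fin 3 → ℝ}
    (h : p ∈ segment ℝ (toReal a) (toReal b)) (t : Fin 3) :
    ((a t : ℝ) ≤ p t ∧ p t ≤ b t) ∨ ((b t : ℝ) ≤ p t ∧ p t ≤ a t) := by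
  obtain ⟨x, y, hx, hy, hxy, rfl⟩ := h
  simp only [Pi.add_apply, Pi.smul_apply, smul_eq_mul, toReal]
  have hx' : x = 1 - y := by linarith
  subst hx'
  rcases le_total (a t : ℝ) (b t : ℝ) with hab | hab
  · left
    constructor <;> nlinarith
  · right
    constructor <;> nlinarith

section Lower

variable {V : Type} (D : OneBendDrawing (⊤ : SimpleGraph V))

lemma lo_le (u : V) (t : Fin 3) : D.lo u t ≤ D.hi u t := D.lo_le_hi u t

lemma sep_of_ne {u w : V} (h : u ≠ w) :
    ∃ t, D.hi u t < D.lo w t ∨ D.hi w t < D.lo u t := by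
  by_contra hcon
  push Not at hcon
  have hd := D.boxes_disjoint u w h
  rw [Set.disjoint_left] at hd
  apply hd (a := toReal (fun t => max (D.lo u t) (D.lo w t)))
  · rw [mem_gridBox]
    intro t
    have h1 := lo_le D u t
    have h2 := lo_le D w t
    have h3 := hcon t
    constructor
    · exact le_max_left _ _
    · exact max_le h1 h3.1
  · rw [mem_gridBox]
    intro t
    have h1 := lo_le D u t
    have h2 := lo_le D w t
    have h3 := hcon t
    constructor
    · exact le_max_right _ _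
    · exact max_le h3.2 h2

lemma adj_of_ne {u v : V} (h : u ≠ v) : (⊤ : SimpleGraph V).Adj u v := by
  simpa using h

lemma port_bounds {u v : V} (h : u ≠ v) (t : Fin 3) :
    D.lo u t ≤ D.port u v t ∧ D.port u v t ≤ D.hi u t := by
  have := (D.port_mem u v (adj_of_ne h)).1
  exact (mem_gridBox.1 this) t

/-- If two sets of boxes are separated by a plane orthogonal to the axis `x`, all the edges
between them cross this plane. -/
lemma sep_bound {L H : Fin 3 → ℤ} (hin : D.InBox L H) {x y z : Fin 3}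
    (hxyz : ∀ t, t = x ∨ t = y ∨ t = z) (hyx : y ≠ x) (hzx : z ≠ x) (m : ℤ) (S₁ S₂ : Finset V)
    (h₁ : ∀ u ∈ S₁, D.hi u x ≤ m) (h₂ : ∀ v ∈ S₂, m < D.lo v x) :
    S₁.card * S₂.card ≤ (Finset.Icc (L y) (H y)).card * (Finset.Icc (L z) (H z)).card := by
  classical
  have hne : ∀ u ∈ S₁, ∀ v ∈ S₂, u ≠ v := by
    rintro u hu v hv rfl
    have e1 := h₁ u hu
    have e2 := h₂ u hv
    have e3 := lo_le D u x
    omega
  have key : ∀ u v : V, ∃ p : Fin 3 → ℤ, u ∈ S₁ → v ∈ S₂ →
      toReal p ∈ route (D.port u v) (D.bend u v) (D.port v u) ∧ p x = m := by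
    intro u v
    by_cases huv : u ∈ S₁ ∧ v ∈ S₂
    · obtain ⟨hu, hv⟩ := huv
      have hneuv := hne u hu v hv
      obtain ⟨i, j, hij, hi, hj⟩ := D.axis_parallel u v (adj_of_ne hneuv)
      have b1 := port_bounds D hneuv x
      have b2 := port_bounds D hneuv.symm x
      have e1 := h₁ u hu
      have e2 := h₂ v hv
      by_cases hxi : x = i
      · subst hxi
        refine ⟨Function.update (D.port u v) x m, fun _ _ => ⟨Or.inl ?_, by simp⟩⟩
        have hjx := hj x hij
        apply mem_segment_of_between x hi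
        · intro t ht
          rw [Function.update_of_ne ht]
        · left
          rw [Function.update_self]
          omega
      · by_cases hxj : x = j
        · subst hxj
          refine ⟨Function.update (D.bend u v) x m, fun _ _ => ⟨Or.inr ?_, by simp⟩⟩
          have hix := hi x hxi
          apply mem_segment_of_between x hj
          · intro t ht
            rw [Function.update_of_ne ht]
          · left
            rw [Function.update_self]
            omega
        · exfalso
          have := hi x hxi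
          have := hj x hxj
          omega
    · exact ⟨0, fun h1 h2 => absurd ⟨h1, h2⟩ huv⟩
  choose p hp using key
  rw [← Finset.card_product, ← Finset.card_product]
  apply Finset.card_le_card_of_injOn (fun e => (p e.1 e.2 y, p e.1 e.2 z))
  · rintro ⟨u, v⟩ huv
    rw [Finset.mem_coe, Finset.mem_product] at huv
    obtain ⟨hu, hv⟩ := huv
    have h1 := hin.2 u v (adj_of_ne (hne u hu v hv)) (hp u v hu hv).1
    rw [mem_gridBox] at h1
    rw [Finset.mem_coe, Finset.mem_product, Finset.mem_Icc, Finset.mem_Icc]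
    exact ⟨h1 y, h1 z⟩
  · rintro ⟨u, v⟩ huv ⟨u', v'⟩ huv' heq
    rw [Finset.mem_coe, Finset.mem_product] at huv huv'
    obtain ⟨hu, hv⟩ := huv
    obtain ⟨hu', hv'⟩ := huv'
    simp only at hu hv hu' hv'
    simp only [Prod.mk.injEq] at heq
    have hpe : p u v = p u' v' := by
      funext t
      rcases hxyz t with rfl | rfl | rfl
      · rw [(hp u v hu hv).2, (hp u' v' hu' hv').2]
      · exact heq.1
      · exact heq.2
    by_contra hcon
    have hs : s(u, v) ≠ s(u', v') := by
      intro h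
      rw [Sym2.eq_iff] at h
      rcases h with ⟨h1, h2⟩ | ⟨h1, h2⟩
      · apply hcon
        rw [h1, h2]
      · exact hne u hu v' hv' h1
    have hd := D.routes_disjoint u v u' v' (adj_of_ne (hne u hu v hv))
      (adj_of_ne (hne u' hu' v' hv')) hs
    rw [Set.disjoint_left] at hd
    apply hd (hp u v hu hv).1
    rw [hpe]
    exact (hp u' v' hu' hv').1

/-- The box `u` meets the plane orthogonal to `z` at level `c`. -/
def Alive (z : Fin 3) (c : ℤ) (u : V) : Prop := D.lo u z ≤ c ∧ c ≤ D.hi u z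

/-- At level `c` and footprint coordinate `f`, the box `u` is in front of all other boxes of `S`
in the direction of the axis `d` with sign `ε`. -/
def Vis (S : Finset V) (d d' z : Fin 3) (ε : Bool) (u : V) (c f : ℤ) : Prop :=
  Alive D z c u ∧ D.lo u d' ≤ f ∧ f ≤ D.hi u d' ∧
    ∀ w ∈ S, w ≠ u → Alive D z c w → D.lo w d' ≤ f → f ≤ D.hi w d' →
      (if ε = true then D.hi w d < D.lo u d else D.hi u d < D.lo w d)

lemma vis_unique {S : Finset V} {d d' z : Fin 3} {ε : Bool} {u u' : V} {c f : ℤ}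
    (hu : u ∈ S) (hu' : u' ∈ S) (h : Vis D S d d' z ε u c f) (h' : Vis D S d d' z ε u' c f) :
    u = u' := by
  by_contra hne
  have h1 := h.2.2.2 u' hu' (Ne.symm hne) h'.1 h'.2.1 h'.2.2.1
  have h2 := h'.2.2.2 u hu hne h.1 h.2.1 h.2.2.1
  have e1 := lo_le D u d
  have e2 := lo_le D u' d
  cases ε <;> simp only [if_true, if_false, Bool.false_eq_true] at h1 h2 <;> omega

/-- the levels above (or below) the level `m` -/
def lev (m : ℤ) (δ : Bool) (k : ℕ) : ℤ := if δ = true then m + k else m - k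

lemma alive_lev {z : Fin 3} {m : ℤ} {δ : Bool} {k k' : ℕ} {u : V} (h0 : Alive D z m u)
    (h : Alive D z (lev m δ k) u) (hk : k' ≤ k) : Alive D z (lev m δ k') u := by
  unfold Alive lev at *
  cases δ <;> simp only [if_true, if_false, Bool.false_eq_true] at * <;> omega

lemma vis_mono {S : Finset V} {d d' z : Fin 3} {ε : Bool} {u : V} {m f : ℤ} {δ : Bool} {k k' : ℕ}
    (hS : ∀ w ∈ S, Alive D z m w) (h : Vis D S d d' z ε u (lev m δ k) f) (hk : k ≤ k')
    (hal : Alive D z (lev m δ k') u) : Vis D S d d' z ε u (lev m δ k') f := by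
  refine ⟨hal, h.2.1, h.2.2.1, ?_⟩
  intro w hw hwu hwal hw1 hw2
  exact h.2.2.2 w hw hwu (alive_lev D (hS w hw) hwal hk) hw1 hw2

/-- The first segment of a route that leaves a set of boxes witnesses visibility. -/
lemma vis_of_route {S : Finset V} {d d' z : Fin 3} (hxyz : ∀ t, t = d ∨ t = d' ∨ t = z)
    (hdd' : d' ≠ d) (hzd : z ≠ d) (ε : Bool) {u v : V} (huv : u ≠ v)
    (h1 : ∀ t, t ≠ d → D.port u v t = D.bend u v t)
    (h2 : ∀ t, t ≠ d' → D.bend u v t = D.port v u t)
    (hS : ∀ w ∈ S, if ε = true then D.hi w d < D.bend u v d else D.bend u v d < D.lo w d) :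
    Vis D S d d' z ε u (D.bend u v z) (D.bend u v d') := by
  have pb := port_bounds D huv
  have e1 := h1 d' hdd'
  have e2 := h1 z hzd
  have e3 := h2 d (Ne.symm hdd')
  refine ⟨?_, ?_, ?_, ?_⟩
  · have := pb z
    unfold Alive
    omega
  · have := pb d'
    omega
  · have := pb d'
    omega
  · intro w hw hwu hal hf1 hf2
    have pbd := pb d
    have pbd' := pb d'
    have pbz := pb z
    have hSw := hS w hw
    have hlw := lo_le D w d
    obtain ⟨t, ht⟩ := sep_of_ne D (Ne.symm hwu)
    unfold Alive at hal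
    rcases hxyz t with rfl | rfl | rfl
    · rcases ε with _ | _
      · simp only [Bool.false_eq_true, if_false] at hSw ⊢
        rcases ht with ht | ht
        · exact ht
        · exfalso
          -- `w` blocks the segment at its upper end in direction `t`
          have hmem : toReal (Function.update (D.bend u v) t (D.hi w t)) ∈
              route (D.port u v) (D.bend u v) (D.port v u) := by
            left
            apply mem_segment_of_between t h1
            · intro s hs
              rw [Function.update_of_ne hs, h1 s hs]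
            · right
              rw [Function.update_self]
              omega
          have := D.route_avoids u v w (adj_of_ne huv) _ hmem ?_ ?_
          · apply this
            rw [mem_gridBox]
            intro s
            rcases hxyz s with rfl | rfl | rfl
            · rw [Function.update_self]; omega
            · rw [Function.update_of_ne hdd']; omega
            · rw [Function.update_of_ne hzd]; omega
          · intro h
            have := congrFun (toReal_injective h) t
            rw [Function.update_self] at this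
            omega
          · intro h
            have := congrFun (toReal_injective h) t
            rw [Function.update_self] at this
            omega
      · simp only [if_true] at hSw ⊢
        rcases ht with ht | ht
        · exfalso
          have hmem : toReal (Function.update (D.bend u v) t (D.lo w t)) ∈
              route (D.port u v) (D.bend u v) (D.port v u) := by
            left
            apply mem_segment_of_between t h1
            · intro s hs
              rw [Function.update_of_ne hs, h1 s hs]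
            · left
              rw [Function.update_self]
              omega
          have := D.route_avoids u v w (adj_of_ne huv) _ hmem ?_ ?_
          · apply this
            rw [mem_gridBox]
            intro s
            rcases hxyz s with rfl | rfl | rfl
            · rw [Function.update_self]; omega
            · rw [Function.update_of_ne hdd']; omega
            · rw [Function.update_of_ne hzd]; omega
          · intro h
            have := congrFun (toReal_injective h) t
            rw [Function.update_self] at this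
            omega
          · intro h
            have := congrFun (toReal_injective h) t
            rw [Function.update_self] at this
            omega
        · exact ht
    · exfalso; omega
    · exfalso; omega

/-- Counting pairs that are visible at a common level, when visibility is monotone. -/
lemma count_pairs (S₁ S₂ : Finset V) (F₁ F₂ : Finset ℤ) (P₁ P₂ : V → ℕ → ℤ → Prop)
    (uniq₁ : ∀ u ∈ S₁, ∀ u' ∈ S₁, ∀ k f, P₁ u k f → P₁ u' k f → u = u')
    (uniq₂ : ∀ u ∈ S₂, ∀ u' ∈ S₂, ∀ k f, P₂ u k f → P₂ u' k f → u = u')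
    (mono₁ : ∀ u ∈ S₁, ∀ k k' k'' f f', P₁ u k f → k ≤ k' → k' ≤ k'' → P₁ u k'' f' → P₁ u k' f)
    (mono₂ : ∀ u ∈ S₂, ∀ k k' k'' f f', P₂ u k f → k ≤ k' → k' ≤ k'' → P₂ u k'' f' → P₂ u k' f)
    (mem₁ : ∀ u ∈ S₁, ∀ k f, P₁ u k f → f ∈ F₁) (mem₂ : ∀ u ∈ S₂, ∀ k f, P₂ u k f → f ∈ F₂)
    (E : Finset (V × V))
    (hE : ∀ e ∈ E, e.1 ∈ S₁ ∧ e.2 ∈ S₂ ∧ ∃ k f g, P₁ e.1 k f ∧ P₂ e.2 k g) :
    E.card ≤ S₁.card * F₂.card + S₂.card * F₁.card := by
  classical
  let k₁ : V → ℕ := fun u => sInf {k | ∃ f, P₁ u k f}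
  let k₂ : V → ℕ := fun u => sInf {k | ∃ f, P₂ u k f}
  have h₁ : ∀ u, ∃ f, (∃ k g, P₁ u k g) → P₁ u (k₁ u) f := by
    intro u
    by_cases h : ∃ k g, P₁ u k g
    · obtain ⟨f, hf⟩ := Nat.sInf_mem (s := {k | ∃ f, P₁ u k f}) h
      exact ⟨f, fun _ => hf⟩
    · exact ⟨0, fun h' => absurd h' h⟩
  have h₂ : ∀ u, ∃ f, (∃ k g, P₂ u k g) → P₂ u (k₂ u) f := by
    intro u
    by_cases h : ∃ k g, P₂ u k g
    · obtain ⟨f, hf⟩ := Nat.sInf_mem (s := {k | ∃ f, P₂ u k f}) h
      exact ⟨f, fun _ => hf⟩
    · exact ⟨0, fun h' => absurd h' h⟩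
  choose f₁ hf₁ using h₁
  choose f₂ hf₂ using h₂
  have hle₁ : ∀ u k g, P₁ u k g → k₁ u ≤ k := fun u k g h => Nat.sInf_le ⟨g, h⟩
  have hle₂ : ∀ u k g, P₂ u k g → k₂ u ≤ k := fun u k g h => Nat.sInf_le ⟨g, h⟩
  have hsplit : E ⊆ E.filter (fun e => k₂ e.2 ≤ k₁ e.1) ∪ E.filter (fun e => k₁ e.1 ≤ k₂ e.2) := by
    intro e he
    rw [Finset.mem_union, Finset.mem_filter, Finset.mem_filter]
    rcases le_total (k₂ e.2) (k₁ e.1) with h | h
    · left; exact ⟨he, h⟩
    · right; exact ⟨he, h⟩
  have hA : (E.filter (fun e => k₂ e.2 ≤ k₁ e.1)).card ≤ S₁.card * F₂.card := by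
    rw [← Finset.card_product]
    apply Finset.card_le_card_of_injOn (fun e => (e.1, f₂ e.2))
    · intro e he
      rw [Finset.mem_coe, Finset.mem_filter] at he
      obtain ⟨h1, h2, k, f, g, h3, h4⟩ := hE e he.1
      rw [Finset.mem_coe, Finset.mem_product]
      exact ⟨h1, mem₂ e.2 h2 _ _ (hf₂ e.2 ⟨k, g, h4⟩)⟩
    · rintro ⟨u, v⟩ he ⟨u', v'⟩ he' heq
      rw [Finset.mem_coe, Finset.mem_filter] at he he'
      obtain ⟨h1, h2, k, f, g, h3, h4⟩ := hE _ he.1
      obtain ⟨h1', h2', k', f', g', h3', h4'⟩ := hE _ he'.1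
      have hlev := he.2
      have hlev' := he'.2
      simp only [Prod.mk.injEq] at heq
      simp only at h1 h2 h3 h4 h1' h2' h3' h4' hlev hlev'
      obtain ⟨rfl, hff⟩ := heq
      have q1 : P₂ v (k₁ u) (f₂ v) :=
        mono₂ v h2 _ _ k _ g (hf₂ v ⟨k, g, h4⟩) hlev (hle₁ u k f h3) h4
      have q2 : P₂ v' (k₁ u) (f₂ v') :=
        mono₂ v' h2' _ _ k' _ g' (hf₂ v' ⟨k', g', h4'⟩) hlev' (hle₁ u k' f' h3') h4'
      rw [← hff] at q2
      rw [uniq₂ v h2 v' h2' _ _ q1 q2]
  have hB : (E.filter (fun e => k₁ e.1 ≤ k₂ e.2)).card ≤ S₂.card * F₁.card := by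
    rw [← Finset.card_product]
    apply Finset.card_le_card_of_injOn (fun e => (e.2, f₁ e.1))
    · intro e he
      rw [Finset.mem_coe, Finset.mem_filter] at he
      obtain ⟨h1, h2, k, f, g, h3, h4⟩ := hE e he.1
      rw [Finset.mem_coe, Finset.mem_product]
      exact ⟨h2, mem₁ e.1 h1 _ _ (hf₁ e.1 ⟨k, f, h3⟩)⟩
    · rintro ⟨u, v⟩ he ⟨u', v'⟩ he' heq
      rw [Finset.mem_coe, Finset.mem_filter] at he he'
      obtain ⟨h1, h2, k, f, g, h3, h4⟩ := hE _ he.1
      obtain ⟨h1', h2', k', f', g', h3', h4'⟩ := hE _ he'.1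
      have hlev := he.2
      have hlev' := he'.2
      simp only [Prod.mk.injEq] at heq
      simp only at h1 h2 h3 h4 h1' h2' h3' h4' hlev hlev'
      obtain ⟨rfl, hff⟩ := heq
      have q1 : P₁ u (k₂ v) (f₁ u) :=
        mono₁ u h1 _ _ k _ f (hf₁ u ⟨k, f, h3⟩) hlev (hle₂ v k g h4) h3
      have q2 : P₁ u' (k₂ v) (f₁ u') :=
        mono₁ u' h1' _ _ k' _ f' (hf₁ u' ⟨k', f', h3'⟩) hlev' (hle₂ v k' g' h4') h3'
      rw [← hff] at q2
      rw [uniq₁ u h1 u' h1' _ _ q1 q2]
  calc E.card ≤ _ := Finset.card_le_card hsplit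
    _ ≤ _ := Finset.card_union_le _ _
    _ ≤ _ := Nat.add_le_add hA hB

lemma inBox_coord {L H : Fin 3 → ℤ} (hin : D.InBox L H) (u : V) (t : Fin 3) :
    L t ≤ D.lo u t ∧ D.hi u t ≤ H t := by
  have h1 : toReal (D.lo u) ∈ gridBox L H := by
    apply hin.1 u
    rw [mem_gridBox]
    exact fun t => ⟨le_rfl, lo_le D u t⟩
  have h2 : toReal (D.hi u) ∈ gridBox L H := by
    apply hin.1 u
    rw [mem_gridBox]
    exact fun t => ⟨lo_le D u t, le_rfl⟩
  rw [mem_gridBox] at h1 h2
  exact ⟨(h1 t).1, (h2 t).2⟩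

/-- Pairs of boxes that are visible at a common level on one side of the level `m`. -/
lemma count_vis [DecidableEq V] {L H : Fin 3 → ℤ} (hin : D.InBox L H) {z : Fin 3} {m : ℤ}
    (S₁ S₂ : Finset V) (hz₁ : ∀ u ∈ S₁, Alive D z m u) (hz₂ : ∀ u ∈ S₂, Alive D z m u)
    (d₁ d₁' d₂ d₂' : Fin 3) (ε₁ ε₂ δ : Bool) (E : Finset (V × V))
    (hE : ∀ e ∈ E, e.1 ∈ S₁ ∧ e.2 ∈ S₂ ∧ ∃ k f g, Vis D S₁ d₁ d₁' z ε₁ e.1 (lev m δ k) f ∧
      Vis D S₂ d₂ d₂' z ε₂ e.2 (lev m δ k) g) :
    E.card ≤ S₁.card * (Finset.Icc (L d₂') (H d₂')).card +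
      S₂.card * (Finset.Icc (L d₁') (H d₁')).card := by
  apply count_pairs S₁ S₂ _ _ (fun u k f => Vis D S₁ d₁ d₁' z ε₁ u (lev m δ k) f)
    (fun u k f => Vis D S₂ d₂ d₂' z ε₂ u (lev m δ k) f)
  · intro u hu u' hu' k f h h'
    exact vis_unique D hu hu' h h'
  · intro u hu u' hu' k f h h'
    exact vis_unique D hu hu' h h'
  · intro u hu k k' k'' f f' h h1 h2 h'
    exact vis_mono D hz₁ h h1 (alive_lev D (hz₁ u hu) h'.1 h2)
  · intro u hu k k' k'' f f' h h1 h2 h'
    exact vis_mono D hz₂ h h1 (alive_lev D (hz₂ u hu) h'.1 h2)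
  · intro u hu k f h
    have h1 := inBox_coord D hin u d₁'
    have h2 := h.2.1
    have h3 := h.2.2.1
    rw [Finset.mem_Icc]
    omega
  · intro u hu k f h
    have h1 := inBox_coord D hin u d₂'
    have h2 := h.2.1
    have h3 := h.2.2.1
    rw [Finset.mem_Icc]
    omega
  · exact hE

lemma exists_lev (m c : ℤ) : ∃ (δ : Bool) (k : ℕ), lev m δ k = c := by
  rcases le_total m c with h | h
  · refine ⟨true, (c - m).toNat, ?_⟩
    unfold lev
    simp only [if_true]
    omega
  · refine ⟨false, (m - c).toNat, ?_⟩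
    unfold lev
    simp only [Bool.false_eq_true, if_false]
    omega

/-- **Main counting lemma.**  If all boxes of `S₁ ∪ S₂` meet a common plane orthogonal to `z`, and
`S₁`, `S₂` are separated in both other directions `x` and `y`, then the sides of the bounding box
in the directions `x` and `y` are long. -/
lemma main_count {L H : Fin 3 → ℤ} (hin : D.InBox L H) {x y z : Fin 3}
    (hxyz : ∀ t, t = x ∨ t = y ∨ t = z) (hxy : x ≠ y) (hxz : x ≠ z) (hyz : y ≠ z)
    (m α β : ℤ) (ε : Bool) (S₁ S₂ : Finset V)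
    (hz₁ : ∀ u ∈ S₁, Alive D z m u) (hz₂ : ∀ u ∈ S₂, Alive D z m u)
    (hx₁ : ∀ u ∈ S₁, D.hi u x ≤ α) (hx₂ : ∀ v ∈ S₂, α < D.lo v x)
    (hy₁ : ∀ u ∈ S₁, if ε = true then D.hi u y ≤ β else β < D.lo u y)
    (hy₂ : ∀ v ∈ S₂, if ε = true then β < D.lo v y else D.hi v y ≤ β) :
    S₁.card * S₂.card ≤ 2 * ((S₁.card + S₂.card) *
      ((Finset.Icc (L x) (H x)).card + (Finset.Icc (L y) (H y)).card)) := by
  classical
  let Q₁ : Bool → V × V → Prop := fun δ e => ∃ k f g, Vis D S₁ x y z true e.1 (lev m δ k) f ∧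
      Vis D S₂ y x z (!ε) e.2 (lev m δ k) g
  let Q₂ : Bool → V × V → Prop := fun δ e => ∃ k f g, Vis D S₁ y x z ε e.1 (lev m δ k) f ∧
      Vis D S₂ x y z false e.2 (lev m δ k) g
  have hcov : S₁ ×ˢ S₂ ⊆ ((S₁ ×ˢ S₂).filter (Q₁ true) ∪ (S₁ ×ˢ S₂).filter (Q₁ false)) ∪
      ((S₁ ×ˢ S₂).filter (Q₂ true) ∪ (S₁ ×ˢ S₂).filter (Q₂ false)) := by
    rintro ⟨u, v⟩ huv
    have huv' := huv
    rw [Finset.mem_product] at huv
    obtain ⟨hu, hv⟩ := huv
    simp only at hu hv
    have hux := hx₁ u hu
    have hvx := hx₂ v hv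
    have huy := hy₁ u hu
    have hvy := hy₂ v hv
    have hlux := lo_le D u x
    have hlvx := lo_le D v x
    have hluy := lo_le D u y
    have hlvy := lo_le D v y
    have hne : u ≠ v := by
      rintro rfl
      omega
    obtain ⟨i, j, hij, hi, hj⟩ := D.axis_parallel u v (adj_of_ne hne)
    have bc := D.bend_comm u v (adj_of_ne hne)
    have pux := port_bounds D hne x
    have pvx := port_bounds D hne.symm x
    have puy := port_bounds D hne y
    have pvy := port_bounds D hne.symm y
    -- the route changes both the coordinates `x` and `y`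
    have hxne : D.port u v x ≠ D.port v u x := by omega
    have hyne : D.port u v y ≠ D.port v u y := by
      cases ε <;> simp only [if_true, if_false, Bool.false_eq_true] at huy hvy <;> omega
    have hxij : x = i ∨ x = j := by
      by_contra hcon
      push Not at hcon
      exact hxne ((hi x hcon.1).trans (hj x hcon.2))
    have hyij : y = i ∨ y = j := by
      by_contra hcon
      push Not at hcon
      exact hyne ((hi y hcon.1).trans (hj y hcon.2))
    obtain ⟨δ, k, hk⟩ := exists_lev m (D.bend u v z)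
    have hcases : (x = i ∧ y = j) ∨ (y = i ∧ x = j) := by
      rcases hxij with h | h <;> rcases hyij with h' | h'
      · exact absurd (h.trans h'.symm) hxy
      · left; exact ⟨h, h'⟩
      · right; exact ⟨h', h⟩
      · exact absurd (h.trans h'.symm) hxy
    rcases hcases with ⟨rfl, rfl⟩ | ⟨rfl, rfl⟩
    · -- first segment parallel to `x`, second parallel to `y`
      have hqx : D.bend u v x = D.port v u x := hj x hxy
      have hqy : D.port u v y = D.bend u v y := hi y hxy.symm
      have v1 : Vis D S₁ x y z true u (D.bend u v z) (D.bend u v y) := by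
        apply vis_of_route D hxyz hxy.symm hxz.symm true hne hi hj
        intro w hw
        simp only [if_true]
        have := hx₁ w hw
        omega
      have v2 : Vis D S₂ y x z (!ε) v (D.bend v u z) (D.bend v u x) := by
        apply vis_of_route D _ hxy hyz.symm (!ε) hne.symm
        · intro t ht
          rw [← bc]
          exact (hj t ht).symm
        · intro t ht
          rw [← bc]
          exact (hi t ht).symm
        · intro w hw
          have := hy₂ w hw
          rw [← bc]
          cases ε <;> simp only [if_true, if_false, Bool.false_eq_true, Bool.not_true,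
            Bool.not_false] at this huy hvy ⊢ <;> omega
        · intro t
          rcases hxyz t with h | h | h
          · right; left; exact h
          · left; exact h
          · right; right; exact h
      rw [← bc, ← hk] at v2
      rw [← hk] at v1
      rw [Finset.mem_union, Finset.mem_union]
      left
      cases δ
      · right; rw [Finset.mem_filter]; exact ⟨huv', k, _, _, v1, v2⟩
      · left; rw [Finset.mem_filter]; exact ⟨huv', k, _, _, v1, v2⟩
    · -- first segment parallel to `y`, second parallel to `x`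
      have hqx : D.port u v x = D.bend u v x := hi x hxy
      have hqy : D.bend u v y = D.port v u y := hj y hxy.symm
      have v1 : Vis D S₁ y x z ε u (D.bend u v z) (D.bend u v x) := by
        apply vis_of_route D _ hxy hyz.symm ε hne hi hj
        · intro w hw
          have := hy₁ w hw
          cases ε <;> simp only [if_true, if_false, Bool.false_eq_true] at this huy hvy ⊢ <;> omega
        · intro t
          rcases hxyz t with h | h | h
          · right; left; exact h
          · left; exact h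
          · right; right; exact h
      have v2 : Vis D S₂ x y z false v (D.bend v u z) (D.bend v u y) := by
        apply vis_of_route D hxyz hxy.symm hxz.symm false hne.symm
        · intro t ht
          rw [← bc]
          exact (hj t ht).symm
        · intro t ht
          rw [← bc]
          exact (hi t ht).symm
        · intro w hw
          have := hx₂ w hw
          rw [← bc]
          simp only [Bool.false_eq_true, if_false]
          omega
      rw [← bc, ← hk] at v2
      rw [← hk] at v1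
      rw [Finset.mem_union, Finset.mem_union, Finset.mem_union]
      right
      cases δ
      · right; rw [Finset.mem_filter]; exact ⟨huv', k, _, _, v1, v2⟩
      · left; rw [Finset.mem_filter]; exact ⟨huv', k, _, _, v1, v2⟩
  have hQ₁ : ∀ δ, ((S₁ ×ˢ S₂).filter (Q₁ δ)).card ≤ S₁.card * (Finset.Icc (L x) (H x)).card +
      S₂.card * (Finset.Icc (L y) (H y)).card := by
    intro δ
    apply count_vis D hin S₁ S₂ hz₁ hz₂ x y y x true (!ε) δ
    intro e he
    rw [Finset.mem_filter, Finset.mem_product] at he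
    exact ⟨he.1.1, he.1.2, he.2⟩
  have hQ₂ : ∀ δ, ((S₁ ×ˢ S₂).filter (Q₂ δ)).card ≤ S₁.card * (Finset.Icc (L y) (H y)).card +
      S₂.card * (Finset.Icc (L x) (H x)).card := by
    intro δ
    apply count_vis D hin S₁ S₂ hz₁ hz₂ y x x y ε false δ
    intro e he
    rw [Finset.mem_filter, Finset.mem_product] at he
    exact ⟨he.1.1, he.1.2, he.2⟩
  have h1 := Finset.card_le_card hcov
  have h2 := Finset.card_union_le ((S₁ ×ˢ S₂).filter (Q₁ true) ∪ (S₁ ×ˢ S₂).filter (Q₁ false))
    ((S₁ ×ˢ S₂).filter (Q₂ true) ∪ (S₁ ×ˢ S₂).filter (Q₂ false))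
  have h3 := Finset.card_union_le ((S₁ ×ˢ S₂).filter (Q₁ true)) ((S₁ ×ˢ S₂).filter (Q₁ false))
  have h4 := Finset.card_union_le ((S₁ ×ˢ S₂).filter (Q₂ true)) ((S₁ ×ˢ S₂).filter (Q₂ false))
  have h5 := hQ₁ true
  have h6 := hQ₁ false
  have h7 := hQ₂ true
  have h8 := hQ₂ false
  rw [Finset.card_product] at h1
  nlinarith

/-- Splitting a set of boxes by a plane orthogonal to the axis `t`. -/
lemma exists_split [DecidableEq V] (S : Finset V) (t : Fin 3) (K : ℕ) (hK : 1 ≤ K)
    (hKS : K ≤ S.card) :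
    ∃ m : ℤ, K ≤ (S.filter (fun u => D.hi u t ≤ m)).card ∧
      S.card < (S.filter (fun u => D.lo u t ≤ m ∧ m ≤ D.hi u t)).card +
        (S.filter (fun u => m < D.lo u t)).card + K := by
  classical
  obtain ⟨M, hM⟩ := Finset.exists_le (S.image (fun u => D.hi u t))
  obtain ⟨M', hM'⟩ := Finset.exists_le (S.image (fun u => - D.hi u t))
  have hinh : ∃ m : ℤ, K ≤ (S.filter (fun u => D.hi u t ≤ m)).card := by
    refine ⟨M, ?_⟩
    rw [Finset.filter_true_of_mem]
    · exact hKS
    · intro u hu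
      exact hM _ (Finset.mem_image_of_mem _ hu)
  have hbdd : ∃ b : ℤ, ∀ m : ℤ, K ≤ (S.filter (fun u => D.hi u t ≤ m)).card → b ≤ m := by
    refine ⟨-M', ?_⟩
    intro m hm
    have hpos : 0 < (S.filter (fun u => D.hi u t ≤ m)).card := by omega
    rw [Finset.card_pos] at hpos
    obtain ⟨u, hu⟩ := hpos
    rw [Finset.mem_filter] at hu
    have := hM' _ (Finset.mem_image_of_mem (fun u => - D.hi u t) hu.1)
    omega
  obtain ⟨m, hm1, hm2⟩ := Int.exists_least_of_bdd hbdd hinh
  refine ⟨m, hm1, ?_⟩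
  have hlt : (S.filter (fun u => D.hi u t ≤ m - 1)).card < K := by
    by_contra hcon
    have := hm2 (m - 1) (not_lt.1 hcon)
    omega
  have hcov : S ⊆ S.filter (fun u => D.hi u t ≤ m - 1) ∪
      (S.filter (fun u => D.lo u t ≤ m ∧ m ≤ D.hi u t) ∪ S.filter (fun u => m < D.lo u t)) := by
    intro u hu
    simp only [Finset.mem_union, Finset.mem_filter]
    by_cases h1 : D.hi u t ≤ m - 1
    · left; exact ⟨hu, h1⟩
    · right
      by_cases h2 : D.lo u t ≤ m
      · left; exact ⟨hu, h2, by omega⟩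
      · right; exact ⟨hu, by omega⟩
  have h1 := Finset.card_le_card hcov
  have h2 := Finset.card_union_le (S.filter (fun u => D.hi u t ≤ m - 1))
    (S.filter (fun u => D.lo u t ≤ m ∧ m ≤ D.hi u t) ∪ S.filter (fun u => m < D.lo u t))
  have h3 := Finset.card_union_le (S.filter (fun u => D.lo u t ≤ m ∧ m ≤ D.hi u t))
    (S.filter (fun u => m < D.lo u t))
  omega

/-- If many boxes meet a common axis-parallel line, the volume is at least cubic. -/
lemma line_case [DecidableEq V] {L H : Fin 3 → ℤ} (hin : D.InBox L H) {x y z : Fin 3}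
    (hxyz : ∀ t, t = x ∨ t = y ∨ t = z) (hxy : x ≠ y) (hyz : y ≠ z)
    (m m' : ℤ) (r : ℕ) (hr : 1 ≤ r) (T : Finset V) (hT : 2 * r + 1 ≤ T.card)
    (hz : ∀ u ∈ T, Alive D z m u) (hx : ∀ u ∈ T, Alive D x m' u) :
    r ^ 3 ≤ (Finset.Icc (L x) (H x)).card * (Finset.Icc (L y) (H y)).card *
      (Finset.Icc (L z) (H z)).card := by
  classical
  -- two boxes of `T` have disjoint extents in the direction `y`
  have hdis : ∀ u ∈ T, ∀ w ∈ T, u ≠ w → D.hi u y < D.lo w y ∨ D.hi w y < D.lo u y := by
    intro u hu w hw huw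
    obtain ⟨t, ht⟩ := sep_of_ne D huw
    have h1 := hz u hu
    have h2 := hz w hw
    have h3 := hx u hu
    have h4 := hx w hw
    unfold Alive at h1 h2 h3 h4
    rcases hxyz t with rfl | rfl | rfl
    · exfalso; omega
    · exact ht
    · exfalso; omega
  obtain ⟨β, hβ1, hβ2⟩ := exists_split D T y r hr (by omega)
  have hcross : (T.filter (fun u => D.lo u y ≤ β ∧ β ≤ D.hi u y)).card ≤ 1 := by
    rw [Finset.card_le_one]
    intro u hu w hw
    rw [Finset.mem_filter] at hu hw
    by_contra hne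
    rcases hdis u hu.1 w hw.1 hne with h | h <;> omega
  have hsep := sep_bound D hin (x := y) (y := x) (z := z)
    (fun t => by rcases hxyz t with h | h | h
                 · right; left; exact h
                 · left; exact h
                 · right; right; exact h) hxy hyz.symm β
    (T.filter (fun u => D.hi u y ≤ β)) (T.filter (fun u => β < D.lo u y))
    (fun u hu => (Finset.mem_filter.1 hu).2) (fun u hu => (Finset.mem_filter.1 hu).2)
  have hlong : T.card ≤ (Finset.Icc (L y) (H y)).card := by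
    apply Finset.card_le_card_of_injOn (fun u => D.lo u y)
    · intro u hu
      have h1 := inBox_coord D hin u y
      have h2 := lo_le D u y
      rw [Finset.mem_coe, Finset.mem_Icc]
      show L y ≤ D.lo u y ∧ D.lo u y ≤ H y
      omega
    · intro u hu w hw huw
      by_contra hne
      have h1 := hdis u hu w hw hne
      have h2 := lo_le D u y
      have h3 := lo_le D w y
      simp only at huw
      omega
  set a := (Finset.Icc (L x) (H x)).card
  set b := (Finset.Icc (L y) (H y)).card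
  set c := (Finset.Icc (L z) (H z)).card
  have hrr : r * r ≤ a * c := by
    refine le_trans ?_ hsep
    apply Nat.mul_le_mul
    · exact hβ1
    · omega
  have hrb : r ≤ b := by omega
  calc r ^ 3 = r * (r * r) := by ring
    _ ≤ b * (a * c) := Nat.mul_le_mul hrb hrr
    _ = a * b * c := by ring

/-- Two opposite quadrants give a cubic bound. -/
lemma quadrant_case [DecidableEq V] {L H : Fin 3 → ℤ} (hin : D.InBox L H) {x y z : Fin 3}
    (hxyz : ∀ t, t = x ∨ t = y ∨ t = z) (hxy : x ≠ y) (hxz : x ≠ z) (hyz : y ≠ z)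
    (m α β : ℤ) (ε : Bool) (r : ℕ) (hr : 1 ≤ r) (S₁' S₂' : Finset V)
    (hc₁ : r ≤ S₁'.card) (hc₂ : r ≤ S₂'.card)
    (hz₁' : ∀ u ∈ S₁', Alive D z m u) (hz₂' : ∀ u ∈ S₂', Alive D z m u)
    (hx₁' : ∀ u ∈ S₁', D.hi u x ≤ α) (hx₂' : ∀ v ∈ S₂', α < D.lo v x)
    (hy₁' : ∀ u ∈ S₁', if ε = true then D.hi u y ≤ β else β < D.lo u y)
    (hy₂' : ∀ v ∈ S₂', if ε = true then β < D.lo v y else D.hi v y ≤ β) :
    r ^ 3 ≤ 8 * ((Finset.Icc (L x) (H x)).card * (Finset.Icc (L y) (H y)).card *
      (Finset.Icc (L z) (H z)).card) := by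
  classical
  obtain ⟨S₁, hS₁, hr₁⟩ := Finset.exists_subset_card_eq hc₁
  obtain ⟨S₂, hS₂, hr₂⟩ := Finset.exists_subset_card_eq hc₂
  have hmain := main_count D hin hxyz hxy hxz hyz m α β ε S₁ S₂
    (fun u hu => hz₁' u (hS₁ hu)) (fun u hu => hz₂' u (hS₂ hu))
    (fun u hu => hx₁' u (hS₁ hu)) (fun u hu => hx₂' u (hS₂ hu))
    (fun u hu => hy₁' u (hS₁ hu)) (fun u hu => hy₂' u (hS₂ hu))
  have hsx := sep_bound D hin (x := x) (y := y) (z := z) hxyz hxy.symm hxz.symm α S₁ S₂
    (fun u hu => hx₁' u (hS₁ hu)) (fun u hu => hx₂' u (hS₂ hu))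
  have hperm : ∀ t, t = y ∨ t = x ∨ t = z := by
    intro t
    rcases hxyz t with h | h | h
    · right; left; exact h
    · left; exact h
    · right; right; exact h
  have hsy : S₁.card * S₂.card ≤
      (Finset.Icc (L x) (H x)).card * (Finset.Icc (L z) (H z)).card := by
    cases ε
    · have := sep_bound D hin (x := y) (y := x) (z := z) hperm hxy hyz.symm β S₂ S₁
        (fun u hu => by simpa using hy₂' u (hS₂ hu)) (fun u hu => by simpa using hy₁' u (hS₁ hu))
      rw [mul_comm]
      exact this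
    · exact sep_bound D hin (x := y) (y := x) (z := z) hperm hxy hyz.symm β S₁ S₂
        (fun u hu => by simpa using hy₁' u (hS₁ hu)) (fun u hu => by simpa using hy₂' u (hS₂ hu))
  rw [hr₁, hr₂] at hmain hsx hsy
  set a := (Finset.Icc (L x) (H x)).card
  set b := (Finset.Icc (L y) (H y)).card
  set c := (Finset.Icc (L z) (H z)).card
  have h4 : r ≤ 4 * (a + b) := by
    have : r * r ≤ r * (4 * (a + b)) := by
      calc r * r ≤ 2 * ((r + r) * (a + b)) := hmain
        _ = r * (4 * (a + b)) := by ring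
    exact Nat.le_of_mul_le_mul_left this (by omega)
  calc r ^ 3 = r * (r * r) := by ring
    _ ≤ 4 * (a + b) * (r * r) := Nat.mul_le_mul_right _ h4
    _ = 4 * (a * (r * r)) + 4 * (b * (r * r)) := by ring
    _ ≤ 4 * (a * (b * c)) + 4 * (b * (a * c)) :=
        Nat.add_le_add (Nat.mul_le_mul_left _ (Nat.mul_le_mul_left _ hsx))
          (Nat.mul_le_mul_left _ (Nat.mul_le_mul_left _ hsy))
    _ = 8 * (a * b * c) := by ring

/-- If many boxes meet a common plane, the volume is at least cubic. -/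
lemma plane_case [DecidableEq V] {L H : Fin 3 → ℤ} (hin : D.InBox L H) {x y z : Fin 3}
    (hxyz : ∀ t, t = x ∨ t = y ∨ t = z) (hxy : x ≠ y) (hxz : x ≠ z) (hyz : y ≠ z)
    (m : ℤ) (r : ℕ) (hr : 1 ≤ r) (S : Finset V) (hS : 12 * r + 2 ≤ S.card)
    (hz : ∀ u ∈ S, Alive D z m u) :
    r ^ 3 ≤ 8 * ((Finset.Icc (L x) (H x)).card * (Finset.Icc (L y) (H y)).card *
      (Finset.Icc (L z) (H z)).card) := by
  classical
  have hperm : ∀ t, t = y ∨ t = x ∨ t = z := by
    intro t
    rcases hxyz t with h | h | h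
    · right; left; exact h
    · left; exact h
    · right; right; exact h
  by_cases hX : ∃ m', 2 * r + 1 ≤ (S.filter (fun u => D.lo u x ≤ m' ∧ m' ≤ D.hi u x)).card
  · obtain ⟨m', hm'⟩ := hX
    have := line_case D hin hxyz hxy hyz m m' r hr _ hm'
      (fun u hu => hz u (Finset.mem_filter.1 hu).1) (fun u hu => (Finset.mem_filter.1 hu).2)
    omega
  by_cases hY : ∃ m', 2 * r + 1 ≤ (S.filter (fun u => D.lo u y ≤ m' ∧ m' ≤ D.hi u y)).card
  · obtain ⟨m', hm'⟩ := hY
    have := line_case D hin hperm hxy.symm hxz m m' r hr _ hm'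
      (fun u hu => hz u (Finset.mem_filter.1 hu).1) (fun u hu => (Finset.mem_filter.1 hu).2)
    have e : (Finset.Icc (L y) (H y)).card * (Finset.Icc (L x) (H x)).card =
      (Finset.Icc (L x) (H x)).card * (Finset.Icc (L y) (H y)).card := Nat.mul_comm _ _
    rw [e] at this
    omega
  push Not at hX hY
  obtain ⟨α, hα1, hα2⟩ := exists_split D S x (S.card / 2) (by omega) (by omega)
  obtain ⟨β, hβ1, hβ2⟩ := exists_split D S y (S.card / 2) (by omega) (by omega)
  have hXα := hX α
  have hYβ := hY β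
  set A := S.filter (fun u => D.hi u x ≤ α) with hA
  set A' := S.filter (fun u => α < D.lo u x) with hA'
  set B := S.filter (fun u => D.hi u y ≤ β) with hB
  set B' := S.filter (fun u => β < D.lo u y) with hB'
  set CX := S.filter (fun u => D.lo u x ≤ α ∧ α ≤ D.hi u x) with hCX
  set CY := S.filter (fun u => D.lo u y ≤ β ∧ β ≤ D.hi u y) with hCY
  -- every box not crossing `y = β` is below or above
  have hsplitY : ∀ T : Finset V, T ⊆ S → T.card ≤ (T ∩ B).card + (T ∩ B').card + CY.card := by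
    intro T hT
    have hcov : T ⊆ (T ∩ B) ∪ ((T ∩ B') ∪ CY) := by
      intro u hu
      have huS := hT hu
      simp only [Finset.mem_union, Finset.mem_inter, hB, hB', hCY, Finset.mem_filter]
      by_cases h1 : D.hi u y ≤ β
      · left; exact ⟨hu, huS, h1⟩
      · by_cases h2 : β < D.lo u y
        · right; left; exact ⟨hu, huS, h2⟩
        · right; right; exact ⟨huS, by omega, by omega⟩
    have h1 := Finset.card_le_card hcov
    have h2 := Finset.card_union_le (T ∩ B) ((T ∩ B') ∪ CY)
    have h3 := Finset.card_union_le (T ∩ B') CY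
    omega
  have hsplitX : ∀ T : Finset V, T ⊆ S → T.card ≤ (A ∩ T).card + (A' ∩ T).card + CX.card := by
    intro T hT
    have hcov : T ⊆ (A ∩ T) ∪ ((A' ∩ T) ∪ CX) := by
      intro u hu
      have huS := hT hu
      simp only [Finset.mem_union, Finset.mem_inter, hA, hA', hCX, Finset.mem_filter]
      by_cases h1 : D.hi u x ≤ α
      · left; exact ⟨⟨huS, h1⟩, hu⟩
      · by_cases h2 : α < D.lo u x
        · right; left; exact ⟨⟨huS, h2⟩, hu⟩
        · right; right; exact ⟨huS, by omega, by omega⟩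
    have h1 := Finset.card_le_card hcov
    have h2 := Finset.card_union_le (A ∩ T) ((A' ∩ T) ∪ CX)
    have h3 := Finset.card_union_le (A' ∩ T) CX
    omega
  have s1 := hsplitY A (Finset.filter_subset _ _)
  have s2 := hsplitY A' (Finset.filter_subset _ _)
  have s3 := hsplitX B (Finset.filter_subset _ _)
  have s4 := hsplitX B' (Finset.filter_subset _ _)
  have hchoice : (r ≤ (A ∩ B).card ∧ r ≤ (A' ∩ B').card) ∨
      (r ≤ (A ∩ B').card ∧ r ≤ (A' ∩ B).card) := by
    by_contra hcon
    push Not at hcon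
    omega
  rcases hchoice with ⟨h1, h2⟩ | ⟨h1, h2⟩
  · apply quadrant_case D hin hxyz hxy hxz hyz m α β true r hr (A ∩ B) (A' ∩ B') h1 h2
    · intro u hu
      exact hz u (Finset.mem_filter.1 (Finset.mem_inter.1 hu).1).1
    · intro u hu
      exact hz u (Finset.mem_filter.1 (Finset.mem_inter.1 hu).1).1
    · intro u hu
      exact (Finset.mem_filter.1 (Finset.mem_inter.1 hu).1).2
    · intro u hu
      exact (Finset.mem_filter.1 (Finset.mem_inter.1 hu).1).2
    · intro u hu
      simp only [if_true]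
      exact (Finset.mem_filter.1 (Finset.mem_inter.1 hu).2).2
    · intro u hu
      simp only [if_true]
      exact (Finset.mem_filter.1 (Finset.mem_inter.1 hu).2).2
  · apply quadrant_case D hin hxyz hxy hxz hyz m α β false r hr (A ∩ B') (A' ∩ B) h1 h2
    · intro u hu
      exact hz u (Finset.mem_filter.1 (Finset.mem_inter.1 hu).1).1
    · intro u hu
      exact hz u (Finset.mem_filter.1 (Finset.mem_inter.1 hu).1).1
    · intro u hu
      exact (Finset.mem_filter.1 (Finset.mem_inter.1 hu).1).2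
    · intro u hu
      exact (Finset.mem_filter.1 (Finset.mem_inter.1 hu).1).2
    · intro u hu
      simp only [Bool.false_eq_true, if_false]
      exact (Finset.mem_filter.1 (Finset.mem_inter.1 hu).2).2
    · intro u hu
      simp only [Bool.false_eq_true, if_false]
      exact (Finset.mem_filter.1 (Finset.mem_inter.1 hu).2).2

lemma card_Icc_eq (L H : Fin 3 → ℤ) : (Finset.Icc L H).card =
    (Finset.Icc (L 0) (H 0)).card * (Finset.Icc (L 1) (H 1)).card *
      (Finset.Icc (L 2) (H 2)).card := by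
  rw [Pi.card_Icc, Fin.prod_univ_three]

/-- The lower bound for a drawing of a complete graph inside a grid box. -/
lemma lower_bound_aux [Fintype V] {L H : Fin 3 → ℤ} (hin : D.InBox L H) (r : ℕ) (hr : 1 ≤ r)
    (hV : 14 * r + 2 ≤ Fintype.card V) : r ^ 3 ≤ 8 * (Finset.Icc L H).card := by
  classical
  rw [card_Icc_eq]
  set a := (Finset.Icc (L 0) (H 0)).card with ha
  set b := (Finset.Icc (L 1) (H 1)).card with hb
  set c := (Finset.Icc (L 2) (H 2)).card with hc
  by_cases hcr : ∃ (z : Fin 3) (m : ℤ),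
      12 * r + 2 ≤ (Finset.univ.filter (fun u => D.lo u z ≤ m ∧ m ≤ D.hi u z)).card
  · obtain ⟨z, m, hm⟩ := hcr
    have hz : ∀ u ∈ Finset.univ.filter (fun u => D.lo u z ≤ m ∧ m ≤ D.hi u z), Alive D z m u :=
      fun u hu => (Finset.mem_filter.1 hu).2
    fin_cases z
    · have := plane_case D hin (x := 1) (y := 2) (z := 0) (by decide) (by decide) (by decide)
        (by decide) m r hr _ hm hz
      calc r ^ 3 ≤ 8 * (b * c * a) := this
        _ = 8 * (a * b * c) := by ring
    · have := plane_case D hin (x := 0) (y := 2) (z := 1) (by decide) (by decide) (by decide)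
        (by decide) m r hr _ hm hz
      calc r ^ 3 ≤ 8 * (a * c * b) := this
        _ = 8 * (a * b * c) := by ring
    · exact plane_case D hin (x := 0) (y := 1) (z := 2) (by decide) (by decide) (by decide)
        (by decide) m r hr _ hm hz
  · push Not at hcr
    have hsep : ∀ t : Fin 3, ∃ (m : ℤ) (S₁ S₂ : Finset V), r ≤ S₁.card ∧ r ≤ S₂.card ∧
        (∀ u ∈ S₁, D.hi u t ≤ m) ∧ (∀ u ∈ S₂, m < D.lo u t) := by
      intro t
      obtain ⟨m, h1, h2⟩ := exists_split D Finset.univ t r hr (by rw [Finset.card_univ]; omega)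
      have h3 := hcr t m
      rw [Finset.card_univ] at h2
      refine ⟨m, _, _, h1, (?_ : r ≤ (Finset.univ.filter (fun u => m < D.lo u t)).card),
        fun u hu => (Finset.mem_filter.1 hu).2, fun u hu => (Finset.mem_filter.1 hu).2⟩
      omega
    have hbc : r * r ≤ b * c := by
      obtain ⟨m, S₁, S₂, h1, h2, h3, h4⟩ := hsep 0
      exact (Nat.mul_le_mul h1 h2).trans
        (sep_bound D hin (x := 0) (y := 1) (z := 2) (by decide) (by decide) (by decide) m S₁ S₂
          h3 h4)
    have hac : r * r ≤ a * c := by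
      obtain ⟨m, S₁, S₂, h1, h2, h3, h4⟩ := hsep 1
      exact (Nat.mul_le_mul h1 h2).trans
        (sep_bound D hin (x := 1) (y := 0) (z := 2) (by decide) (by decide) (by decide) m S₁ S₂
          h3 h4)
    have hab : r * r ≤ a * b := by
      obtain ⟨m, S₁, S₂, h1, h2, h3, h4⟩ := hsep 2
      exact (Nat.mul_le_mul h1 h2).trans
        (sep_bound D hin (x := 2) (y := 0) (z := 1) (by decide) (by decide) (by decide) m S₁ S₂
          h3 h4)
    have hsq : (r ^ 3) ^ 2 ≤ (a * b * c) ^ 2 := by
      calc (r ^ 3) ^ 2 = (r * r) * ((r * r) * (r * r)) := by ring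
        _ ≤ (b * c) * ((a * c) * (a * b)) := Nat.mul_le_mul hbc (Nat.mul_le_mul hac hab)
        _ = (a * b * c) ^ 2 := by ring
    have := (Nat.pow_le_pow_iff_left (by norm_num)).1 hsq
    omega

end Lower

/-- The lower bound for a drawing of `K_n`. -/
lemma lower_bound {n : ℕ} (D : OneBendDrawing (⊤ : SimpleGraph (Fin n))) {L H : Fin 3 → ℤ}
    (hin : D.InBox L H) : n ^ 3 ≤ 2 ^ 18 * (Finset.Icc L H).card := by
  rcases Nat.lt_or_ge n 16 with hn | hn
  · rcases Nat.eq_zero_or_pos n with rfl | hpos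
    · simp
    · have hne : (Finset.Icc L H).Nonempty := by
        refine ⟨D.lo ⟨0, hpos⟩, ?_⟩
        rw [Finset.mem_Icc]
        constructor
        · intro t; exact (inBox_coord D hin ⟨0, hpos⟩ t).1
        · intro t
          exact (lo_le D ⟨0, hpos⟩ t).trans (inBox_coord D hin ⟨0, hpos⟩ t).2
      have h1 : 1 ≤ (Finset.Icc L H).card := Finset.card_pos.2 hne
      have h2 : n ^ 3 ≤ 16 ^ 3 := Nat.pow_le_pow_left hn.le 3
      omega
  · have h1 := lower_bound_aux D hin (n / 16) (by omega) (by rw [Fintype.card_fin]; omega)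
    have h2 : n ≤ 32 * (n / 16) := by omega
    calc n ^ 3 ≤ (32 * (n / 16)) ^ 3 := Nat.pow_le_pow_left h2 3
      _ = 2 ^ 15 * (n / 16) ^ 3 := by ring
      _ ≤ 2 ^ 15 * (8 * (Finset.Icc L H).card) := Nat.mul_le_mul_left _ h1
      _ = 2 ^ 18 * (Finset.Icc L H).card := by ring

/-- Every drawing of a finite graph lies in some grid box. -/
lemma exists_inBox {V : Type} [Finite V] {G : SimpleGraph V} (D : OneBendDrawing G) :
    ∃ L H : Fin 3 → ℤ, D.InBox L H := by
  have b1 : BddAbove (Set.range fun q : V × Fin 3 => |D.lo q.1 q.2|) :=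
    (Set.finite_range _).bddAbove
  have b2 : BddAbove (Set.range fun q : V × Fin 3 => |D.hi q.1 q.2|) :=
    (Set.finite_range _).bddAbove
  have b3 : BddAbove (Set.range fun q : (V × V) × Fin 3 => |D.port q.1.1 q.1.2 q.2|) :=
    (Set.finite_range _).bddAbove
  have b4 : BddAbove (Set.range fun q : (V × V) × Fin 3 => |D.bend q.1.1 q.1.2 q.2|) :=
    (Set.finite_range _).bddAbove
  obtain ⟨M1, h1⟩ := b1
  obtain ⟨M2, h2⟩ := b2
  obtain ⟨M3, h3⟩ := b3
  obtain ⟨M4, h4⟩ := b4
  set M := max (max M1 M2) (max M3 M4) with hM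
  have g1 : ∀ v t, |D.lo v t| ≤ M := fun v t =>
    (h1 ⟨(v, t), rfl⟩).trans ((le_max_left _ _).trans (le_max_left _ _))
  have g2 : ∀ v t, |D.hi v t| ≤ M := fun v t =>
    (h2 ⟨(v, t), rfl⟩).trans ((le_max_right _ _).trans (le_max_left _ _))
  have g3 : ∀ u v t, |D.port u v t| ≤ M := fun u v t =>
    (h3 ⟨((u, v), t), rfl⟩).trans ((le_max_left _ _).trans (le_max_right _ _))
  have g4 : ∀ u v t, |D.bend u v t| ≤ M := fun u v t =>
    (h4 ⟨((u, v), t), rfl⟩).trans ((le_max_right _ _).trans (le_max_right _ _))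
  have hmem : ∀ p : Fin 3 → ℤ, (∀ t, |p t| ≤ M) → toReal p ∈ gridBox (fun _ => -M) (fun _ => M) := by
    intro p hp
    rw [mem_gridBox]
    intro t
    exact abs_le.1 (hp t)
  have hconv : Convex ℝ (gridBox (fun _ => -M) (fun _ => M)) := convex_Icc _ _
  refine ⟨fun _ => -M, fun _ => M, ?_, ?_⟩
  · intro v
    have e1 := hmem _ (g1 v)
    have e2 := hmem _ (g2 v)
    unfold gridBox at e1 e2 ⊢
    exact Set.Icc_subset_Icc e1.1 e2.2
  · intro u v _
    unfold route
    apply Set.union_subset
    · exact hconv.segment_subset (hmem _ (g3 u v)) (hmem _ (g4 u v))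
    · exact hconv.segment_subset (hmem _ (g4 u v)) (hmem _ (g3 v u))

/-! ### The cubic construction -/

/-- port of the diagonal drawing -/
def dport {n : ℕ} (i j : Fin n) : Fin 3 → ℤ := ![(i : ℤ), (i : ℤ), (i : ℤ) + (j : ℤ)]

/-- bend of the diagonal drawing -/
def dbend {n : ℕ} (i j : Fin n) : Fin 3 → ℤ :=
  ![min (i : ℤ) (j : ℤ), max (i : ℤ) (j : ℤ), (i : ℤ) + (j : ℤ)]

lemma dport_zero {n : ℕ} (i j : Fin n) : dport i j 0 = (i : ℤ) := rfl

lemma dport_one {n : ℕ} (i j : Fin n) : dport i j 1 = (i : ℤ) := rfl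

lemma dport_two {n : ℕ} (i j : Fin n) : dport i j 2 = (i : ℤ) + (j : ℤ) := rfl

lemma dbend_zero {n : ℕ} (i j : Fin n) : dbend i j 0 = min (i : ℤ) (j : ℤ) := rfl

lemma dbend_one {n : ℕ} (i j : Fin n) : dbend i j 1 = max (i : ℤ) (j : ℤ) := rfl

lemma dbend_two {n : ℕ} (i j : Fin n) : dbend i j 2 = (i : ℤ) + (j : ℤ) := rfl

lemma droute_mem {n : ℕ} {i j : Fin n} {p : Fin 3 → ℝ}
    (hp : p ∈ route (dport i j) (dbend i j) (dport j i)) :
    p 2 = (i : ℝ) + (j : ℝ) ∧
      ((p 0 = min (i : ℝ) (j : ℝ) ∧ min (i : ℝ) (j : ℝ) ≤ p 1 ∧ p 1 ≤ max (i : ℝ) (j : ℝ)) ∨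
       (p 1 = max (i : ℝ) (j : ℝ) ∧ min (i : ℝ) (j : ℝ) ≤ p 0 ∧ p 0 ≤ max (i : ℝ) (j : ℝ))) := by
  rcases hp with hp | hp
  · have c0 := mem_segment_coord hp 0
    have c1 := mem_segment_coord hp 1
    have c2 := mem_segment_coord hp 2
    simp only [dport_zero, dport_one, dport_two, dbend_zero, dbend_one, dbend_two,
      Int.cast_min, Int.cast_max, Int.cast_add, Int.cast_natCast] at c0 c1 c2
    refine ⟨by rcases c2 with c2 | c2 <;> linarith [c2.1, c2.2], ?_⟩
    rcases le_total (i : ℝ) (j : ℝ) with h | h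
    · rw [min_eq_left h, max_eq_right h] at *
      left
      refine ⟨by rcases c0 with c0 | c0 <;> linarith [c0.1, c0.2], ?_, ?_⟩
      · rcases c1 with c1 | c1 <;> linarith [c1.1, c1.2]
      · rcases c1 with c1 | c1 <;> linarith [c1.1, c1.2]
    · rw [min_eq_right h, max_eq_left h] at *
      right
      refine ⟨by rcases c1 with c1 | c1 <;> linarith [c1.1, c1.2], ?_, ?_⟩
      · rcases c0 with c0 | c0 <;> linarith [c0.1, c0.2]
      · rcases c0 with c0 | c0 <;> linarith [c0.1, c0.2]
  · have c0 := mem_segment_coord hp 0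
    have c1 := mem_segment_coord hp 1
    have c2 := mem_segment_coord hp 2
    simp only [dport_zero, dport_one, dport_two, dbend_zero, dbend_one, dbend_two,
      Int.cast_min, Int.cast_max, Int.cast_add, Int.cast_natCast] at c0 c1 c2
    refine ⟨by rcases c2 with c2 | c2 <;> linarith [c2.1, c2.2], ?_⟩
    rcases le_total (i : ℝ) (j : ℝ) with h | h
    · rw [min_eq_left h, max_eq_right h] at *
      right
      refine ⟨by rcases c1 with c1 | c1 <;> linarith [c1.1, c1.2], ?_, ?_⟩
      · rcases c0 with c0 | c0 <;> linarith [c0.1, c0.2]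
      · rcases c0 with c0 | c0 <;> linarith [c0.1, c0.2]
    · rw [min_eq_right h, max_eq_left h] at *
      left
      refine ⟨by rcases c0 with c0 | c0 <;> linarith [c0.1, c0.2], ?_, ?_⟩
      · rcases c1 with c1 | c1 <;> linarith [c1.1, c1.2]
      · rcases c1 with c1 | c1 <;> linarith [c1.1, c1.2]

/-- lower corner of the box of a vertex of the diagonal drawing -/
def dlo {n : ℕ} (i : Fin n) : Fin 3 → ℤ := ![(i : ℤ), (i : ℤ), 0]

/-- upper corner of the box of a vertex of the diagonal drawing -/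
def dhi {n : ℕ} (i : Fin n) : Fin 3 → ℤ := ![(i : ℤ), (i : ℤ), 2 * (n : ℤ) - 1]

lemma dbox_mem {n : ℕ} {i : Fin n} {p : Fin 3 → ℝ} (hp : p ∈ gridBox (dlo i) (dhi i)) :
    p 0 = (i : ℝ) ∧ p 1 = (i : ℝ) := by
  unfold gridBox at hp
  rw [Set.mem_Icc, Pi.le_def, Pi.le_def] at hp
  have h0 : ((i : ℤ) : ℝ) ≤ p 0 := hp.1 0
  have h1 : ((i : ℤ) : ℝ) ≤ p 1 := hp.1 1
  have h0' : p 0 ≤ ((i : ℤ) : ℝ) := hp.2 0
  have h1' : p 1 ≤ ((i : ℤ) : ℝ) := hp.2 1
  simp only [Int.cast_natCast] at h0 h1 h0' h1'
  exact ⟨le_antisymm h0' h0, le_antisymm h1' h1⟩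

lemma fin_cast_inj {n : ℕ} {i j : Fin n} (h : (i : ℝ) = (j : ℝ)) : i = j := by
  apply Fin.ext
  exact_mod_cast h

/-- The diagonal drawing of `K_n`: vertex `i` is the segment above `(i, i)`, and the edge `ij` is
drawn in the plane at height `i + j`. -/
def diagonalDrawing (n : ℕ) : OneBendDrawing (⊤ : SimpleGraph (Fin n)) where
  lo := dlo
  hi := dhi
  port := dport
  bend := dbend
  lo_le_hi := by
    intro i
    rw [Pi.le_def]
    intro t
    have hi := i.2
    fin_cases t
    · exact le_rfl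
    · exact le_rfl
    · show (0 : ℤ) ≤ 2 * (n : ℤ) - 1
      omega
  boxes_disjoint := by
    intro i j hij
    rw [Set.disjoint_left]
    intro p hp hp'
    apply hij
    apply fin_cast_inj
    rw [← (dbox_mem hp).1, (dbox_mem hp').1]
  bend_comm := by
    intro i j _
    unfold dbend
    rw [min_comm, max_comm, add_comm]
  port_mem := by
    intro i j _
    refine ⟨?_, 0, Or.inl rfl⟩
    rw [mem_gridBox]
    intro t
    have hi := i.2
    have hj := j.2
    fin_cases t
    · exact ⟨le_rfl, le_rfl⟩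
    · exact ⟨le_rfl, le_rfl⟩
    · show (0 : ℤ) ≤ (i : ℤ) + (j : ℤ) ∧ (i : ℤ) + (j : ℤ) ≤ 2 * (n : ℤ) - 1
      omega
  axis_parallel := by
    intro i j _
    rcases le_total (i : ℤ) (j : ℤ) with h | h
    · refine ⟨1, 0, by decide, ?_, ?_⟩
      · intro t ht
        fin_cases t
        · show (i : ℤ) = min (i : ℤ) (j : ℤ)
          rw [min_eq_left h]
        · exact absurd rfl ht
        · rfl
      · intro t ht
        fin_cases t
        · exact absurd rfl ht
        · show max (i : ℤ) (j : ℤ) = (j : ℤ)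
          rw [max_eq_right h]
        · show (i : ℤ) + (j : ℤ) = (j : ℤ) + (i : ℤ)
          rw [add_comm]
    · refine ⟨0, 1, by decide, ?_, ?_⟩
      · intro t ht
        fin_cases t
        · exact absurd rfl ht
        · show (i : ℤ) = max (i : ℤ) (j : ℤ)
          rw [max_eq_left h]
        · rfl
      · intro t ht
        fin_cases t
        · show min (i : ℤ) (j : ℤ) = (j : ℤ)
          rw [min_eq_right h]
        · exact absurd rfl ht
        · show (i : ℤ) + (j : ℤ) = (j : ℤ) + (i : ℤ)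
          rw [add_comm]
  route_avoids := by
    intro i j w hadj p hp hp1 hp2 hpw
    obtain ⟨h2, h01⟩ := droute_mem hp
    obtain ⟨hw0, hw1⟩ := dbox_mem hpw
    -- then `p` is the point above `(i, i)` or `(j, j)`
    have hor : (p 0 = (i : ℝ) ∧ p 1 = (i : ℝ)) ∨ (p 0 = (j : ℝ) ∧ p 1 = (j : ℝ)) := by
      rcases h01 with ⟨h3, -, -⟩ | ⟨h3, -, -⟩
      · rcases min_choice (i : ℝ) (j : ℝ) with h | h
        · left; rw [h] at h3; exact ⟨h3, by rw [hw1, ← hw0, h3]⟩
        · right; rw [h] at h3; exact ⟨h3, by rw [hw1, ← hw0, h3]⟩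
      · rcases max_choice (i : ℝ) (j : ℝ) with h | h
        · left; rw [h] at h3; exact ⟨by rw [hw0, ← hw1, h3], h3⟩
        · right; rw [h] at h3; exact ⟨by rw [hw0, ← hw1, h3], h3⟩
    rcases hor with ⟨h3, h4⟩ | ⟨h3, h4⟩
    · apply hp1
      funext t
      fin_cases t
      · show p 0 = ((dport i j 0 : ℤ) : ℝ)
        rw [dport_zero, h3]; simp
      · show p 1 = ((dport i j 1 : ℤ) : ℝ)
        rw [dport_one, h4]; simp
      · show p 2 = ((dport i j 2 : ℤ) : ℝ)
        rw [dport_two, h2]; simp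
    · apply hp2
      funext t
      fin_cases t
      · show p 0 = ((dport j i 0 : ℤ) : ℝ)
        rw [dport_zero, h3]; simp
      · show p 1 = ((dport j i 1 : ℤ) : ℝ)
        rw [dport_one, h4]; simp
      · show p 2 = ((dport j i 2 : ℤ) : ℝ)
        rw [dport_two, h2]; push_cast; ring
  routes_disjoint := by
    intro i j i' j' hadj hadj' hne
    rw [Set.disjoint_left]
    intro p hp hp'
    obtain ⟨h2, h01⟩ := droute_mem hp
    obtain ⟨h2', h01'⟩ := droute_mem hp'
    have hsum : min (i : ℝ) (j : ℝ) + max (i : ℝ) (j : ℝ) =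
        min (i' : ℝ) (j' : ℝ) + max (i' : ℝ) (j' : ℝ) := by
      rw [min_add_max, min_add_max, ← h2, ← h2']
    have hmin : min (i : ℝ) (j : ℝ) = min (i' : ℝ) (j' : ℝ) := by
      rcases h01 with ⟨h3, h4, h5⟩ | ⟨h3, h4, h5⟩ <;>
        rcases h01' with ⟨h3', h4', h5'⟩ | ⟨h3', h4', h5'⟩ <;> linarith
    have hmax : max (i : ℝ) (j : ℝ) = max (i' : ℝ) (j' : ℝ) := by linarith
    apply hne
    rw [Sym2.eq_iff]
    rcases le_total (i : ℝ) (j : ℝ) with h | h <;> rcases le_total (i' : ℝ) (j' : ℝ) with h' | h'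
    · rw [min_eq_left h, min_eq_left h'] at hmin
      rw [max_eq_right h, max_eq_right h'] at hmax
      exact Or.inl ⟨fin_cast_inj hmin, fin_cast_inj hmax⟩
    · rw [min_eq_left h, min_eq_right h'] at hmin
      rw [max_eq_right h, max_eq_left h'] at hmax
      exact Or.inr ⟨fin_cast_inj hmin, fin_cast_inj hmax⟩
    · rw [min_eq_right h, min_eq_left h'] at hmin
      rw [max_eq_left h, max_eq_right h'] at hmax
      exact Or.inr ⟨fin_cast_inj hmax, fin_cast_inj hmin⟩
    · rw [min_eq_right h, min_eq_right h'] at hmin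
      rw [max_eq_left h, max_eq_left h'] at hmax
      exact Or.inl ⟨fin_cast_inj hmax, fin_cast_inj hmin⟩

lemma diagonal_inBox (n : ℕ) : (diagonalDrawing n).InBox (fun _ => 0)
    ![(n : ℤ) - 1, (n : ℤ) - 1, 2 * (n : ℤ) - 1] := by
  have hbox : ∀ i : Fin n, ∀ p : Fin 3 → ℤ, (∀ t, 0 ≤ p t) → p 0 ≤ (n : ℤ) - 1 →
      p 1 ≤ (n : ℤ) - 1 → p 2 ≤ 2 * (n : ℤ) - 1 →
      toReal p ∈ gridBox (fun _ => 0) ![(n : ℤ) - 1, (n : ℤ) - 1, 2 * (n : ℤ) - 1] := by
    intro _ p h h0 h1 h2
    rw [mem_gridBox]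
    intro t
    refine ⟨h t, ?_⟩
    fin_cases t
    · exact h0
    · exact h1
    · exact h2
  have hconv : Convex ℝ (gridBox (fun _ => 0) ![(n : ℤ) - 1, (n : ℤ) - 1, 2 * (n : ℤ) - 1]) :=
    convex_Icc _ _
  have hport : ∀ i j : Fin n, toReal (dport i j) ∈
      gridBox (fun _ => 0) ![(n : ℤ) - 1, (n : ℤ) - 1, 2 * (n : ℤ) - 1] := by
    intro i j
    have hi := i.2
    have hj := j.2
    apply hbox i
    · intro t
      fin_cases t
      · show (0 : ℤ) ≤ (i : ℤ)
        omega
      · show (0 : ℤ) ≤ (i : ℤ)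
        omega
      · show (0 : ℤ) ≤ (i : ℤ) + (j : ℤ)
        omega
    · rw [dport_zero]; omega
    · rw [dport_one]; omega
    · rw [dport_two]; omega
  have hbend : ∀ i j : Fin n, toReal (dbend i j) ∈
      gridBox (fun _ => 0) ![(n : ℤ) - 1, (n : ℤ) - 1, 2 * (n : ℤ) - 1] := by
    intro i j
    have hi := i.2
    have hj := j.2
    apply hbox i
    · intro t
      fin_cases t
      · show (0 : ℤ) ≤ min (i : ℤ) (j : ℤ)
        omega
      · show (0 : ℤ) ≤ max (i : ℤ) (j : ℤ)
        omega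
      · show (0 : ℤ) ≤ (i : ℤ) + (j : ℤ)
        omega
    · rw [dbend_zero]; omega
    · rw [dbend_one]; omega
    · rw [dbend_two]; omega
  refine ⟨?_, ?_⟩
  · intro i
    have hi := i.2
    have e1 : toReal (dlo i) ∈
        gridBox (fun _ => 0) ![(n : ℤ) - 1, (n : ℤ) - 1, 2 * (n : ℤ) - 1] := by
      apply hbox i
      · intro t
        fin_cases t
        · show (0 : ℤ) ≤ (i : ℤ)
          omega
        · show (0 : ℤ) ≤ (i : ℤ)
          omega
        · exact le_rfl
      · show (i : ℤ) ≤ (n : ℤ) - 1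
        omega
      · show (i : ℤ) ≤ (n : ℤ) - 1
        omega
      · show (0 : ℤ) ≤ 2 * (n : ℤ) - 1
        omega
    have e2 : toReal (dhi i) ∈
        gridBox (fun _ => 0) ![(n : ℤ) - 1, (n : ℤ) - 1, 2 * (n : ℤ) - 1] := by
      apply hbox i
      · intro t
        fin_cases t
        · show (0 : ℤ) ≤ (i : ℤ)
          omega
        · show (0 : ℤ) ≤ (i : ℤ)
          omega
        · show (0 : ℤ) ≤ 2 * (n : ℤ) - 1
          omega
      · show (i : ℤ) ≤ (n : ℤ) - 1
        omega
      · show (i : ℤ) ≤ (n : ℤ) - 1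
        omega
      · exact le_rfl
    unfold gridBox at e1 e2 ⊢
    exact Set.Icc_subset_Icc e1.1 e2.2
  · intro i j _
    unfold route
    apply Set.union_subset
    · exact hconv.segment_subset (hport i j) (hbend i j)
    · exact hconv.segment_subset (hbend i j) (hport j i)

/-- **The volume of one-bend orthogonal box-drawings of complete graphs is cubic.** -/
theorem main (n : ℕ) : n ^ 3 ≤ 2 ^ 18 * V₁ n ∧ V₁ n ≤ 2 * n ^ 3 := by
  constructor
  · have hne : {N : ℕ | ∃ D : OneBendDrawing (⊤ : SimpleGraph (Fin n)), D.volume = N}.Nonempty :=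
      ⟨_, diagonalDrawing n, rfl⟩
    obtain ⟨D, hD⟩ := Nat.sInf_mem hne
    have hne' : {N : ℕ | ∃ L H : Fin 3 → ℤ, D.InBox L H ∧ N = (Finset.Icc L H).card}.Nonempty := by
      obtain ⟨L, H, h⟩ := exists_inBox D
      exact ⟨_, L, H, h, rfl⟩
    obtain ⟨L, H, h, hN⟩ := Nat.sInf_mem hne'
    have h1 := lower_bound D h
    have h2 : V₁ n = (Finset.Icc L H).card := by
      rw [← hN]
      exact hD.symm
    rw [h2]
    exact h1
  · have h1 : V₁ n ≤ (diagonalDrawing n).volume := Nat.sInf_le ⟨diagonalDrawing n, rfl⟩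
    have h2 : (diagonalDrawing n).volume ≤ (Finset.Icc (fun _ => 0 : Fin 3 → ℤ)
        ![(n : ℤ) - 1, (n : ℤ) - 1, 2 * (n : ℤ) - 1]).card :=
      Nat.sInf_le ⟨_, _, diagonal_inBox n, rfl⟩
    rw [card_Icc_eq] at h2
    have h3 : (Finset.Icc (0 : ℤ) ((n : ℤ) - 1)).card = n := by
      rw [Int.card_Icc]; omega
    have h4 : (Finset.Icc (0 : ℤ) (2 * (n : ℤ) - 1)).card = 2 * n := by
      rw [Int.card_Icc]; omega
    have h5 : (Finset.Icc (0 : ℤ) ((![(n : ℤ) - 1, (n : ℤ) - 1, 2 * (n : ℤ) - 1] : Fin 3 → ℤ) 0)).card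
        = n := h3
    have h6 : (Finset.Icc (0 : ℤ) ((![(n : ℤ) - 1, (n : ℤ) - 1, 2 * (n : ℤ) - 1] : Fin 3 → ℤ) 1)).card
        = n := h3
    have h7 : (Finset.Icc (0 : ℤ) ((![(n : ℤ) - 1, (n : ℤ) - 1, 2 * (n : ℤ) - 1] : Fin 3 → ℤ) 2)).card
        = 2 * n := h4
    rw [h5, h6, h7] at h2
    calc V₁ n ≤ n * n * (2 * n) := h1.trans h2
      _ = 2 * n ^ 3 := by ring

end Pool.Agent.H29.BoxDrawing
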