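import Mathlib

set_option autoImplicit false

namespace Pool.Agent.H29.Hops

/-- `HopReach G σ k ℓ v u`: the vertex `u` is `k`-hop `ℓ`-reachable from `v` in `G` with respect
to the linear order `σ`, i.e. there is a path `x 0, x 1, ..., x s` of length `s ≤ ℓ` in `G`
(consecutive vertices adjacent, all vertices distinct) from `x 0 = v` to `x s = u`, such that `u`
is smaller than every earlier vertex of the path, and at most `k` indices `1 ≤ j ≤ s` have `x j`
smaller than all of `x 0, ..., x (j - 1)`. -/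
def HopReach {V : Type} (G : SimpleGraph V) (σ : LinearOrder V) (k ℓ : ℕ) (v u : V) : Prop :=
  ∃ (s : ℕ) (x : ℕ → V), s ≤ ℓ ∧ x 0 = v ∧ x s = u ∧
    (∀ i < s, G.Adj (x i) (x (i + 1))) ∧
    (∀ i ≤ s, ∀ j ≤ s, x i = x j → i = j) ∧
    (∀ i < s, σ.lt u (x i)) ∧
    {j : ℕ | 1 ≤ j ∧ j ≤ s ∧ ∀ i < j, σ.lt (x j) (x i)}.ncard ≤ k

/-- The set of all vertices that are `k`-hop `ℓ`-reachable from `v`. -/
def GReach {V : Type} (G : SimpleGraph V) (σ : LinearOrder V) (k ℓ : ℕ) (v : V) : Set V :=
  {u | HopReach G σ k ℓ v u}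

/-- The `k`-hop colouring number: the minimum over all linear orders of the maximum over all
vertices `v` of the number of vertices that are `k`-hop `ℓ`-reachable from `v`. -/
noncomputable def gcol (k ℓ : ℕ) {V : Type} (G : SimpleGraph V) : ℕ :=
  ⨅ σ : LinearOrder V, ⨆ v : V, (GReach G σ k ℓ v).ncard

/-- A class of graphs, as a predicate (only its finite members are ever used). -/
abbrev GraphClass : Type 1 := (V : Type) → SimpleGraph V → Prop

/-- The finite graphs of the class `C` have polynomial strong colouring numbers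
(`col_ℓ = gcol_{1,ℓ}`). -/
def PolynomialStrongColouringNumbers (C : GraphClass) : Prop :=
  ∃ p : Polynomial ℝ, ∀ (V : Type) [Finite V] (G : SimpleGraph V), C V G →
    ∀ ℓ : ℕ, 1 ≤ ℓ → (gcol 1 ℓ G : ℝ) ≤ p.eval (ℓ : ℝ)

/-- Property (P) of a function `k`: for every class with polynomial strong colouring numbers,
`gcol_{k(ℓ),ℓ}` is bounded by a polynomial in `ℓ` on the class. -/
def PropertyP (k : ℕ → ℕ) : Prop :=
  ∀ C : GraphClass, PolynomialStrongColouringNumbers C →
    ∃ q : Polynomial ℝ, ∀ (V : Type) [Finite V] (G : SimpleGraph V), C V G →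
      ∀ ℓ : ℕ, 1 ≤ ℓ → (gcol (k ℓ) ℓ G : ℝ) ≤ q.eval (ℓ : ℝ)

end Pool.Agent.H29.Hops
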