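import Pool.Agent.H29.HopsDefs

set_option autoImplicit false

namespace Pool.Agent.H29.Hops

/-! ### Basic facts -/

section Basic

variable {V : Type} (G : SimpleGraph V) (σ : LinearOrder V)

lemma hopReach_refl (k ℓ : ℕ) (v : V) : HopReach G σ k ℓ v v := by
  refine ⟨0, fun _ => v, Nat.zero_le _, rfl, rfl, ?_, ?_, ?_, ?_⟩
  · intro i hi; omega
  · intro i hi j hj _; omega
  · intro i hi; omega
  · have : {j : ℕ | 1 ≤ j ∧ j ≤ 0 ∧ ∀ i < j, σ.lt v v} = ∅ := by
      ext j
      simp only [Set.mem_ofPred_eq, Set.mem_empty_iff_false, iff_false]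
      rintro ⟨h1, h2, -⟩
      omega
    rw [this]
    simp

lemma finite_idx (s : ℕ) (p : ℕ → Prop) : {j : ℕ | 1 ≤ j ∧ j ≤ s ∧ p j}.Finite :=
  (Set.finite_Iic s).subset (fun _ hj => hj.2.1)

lemma hopReach_mono {k k' ℓ ℓ' : ℕ} (hk : k ≤ k') (hℓ : ℓ ≤ ℓ') {v u : V}
    (h : HopReach G σ k ℓ v u) : HopReach G σ k' ℓ' v u := by
  obtain ⟨s, x, h1, h2, h3, h4, h5, h6, h7⟩ := h
  exact ⟨s, x, h1.trans hℓ, h2, h3, h4, h5, h6, h7.trans hk⟩

/-- A single hop followed by at most `k` hops: the decomposition at the first new minimum. -/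
lemma hopReach_succ {k ℓ : ℕ} {v u : V} (h : HopReach G σ (k + 1) ℓ v u) :
    ∃ w, HopReach G σ 1 ℓ v w ∧ HopReach G σ k ℓ w u := by
  classical
  obtain ⟨s, x, h1, h2, h3, h4, h5, h6, h7⟩ := h
  rcases Nat.eq_zero_or_pos s with rfl | hs
  · refine ⟨v, hopReach_refl G σ 1 ℓ v, ?_⟩
    have : u = v := by rw [← h3, h2]
    rw [this]
    exact hopReach_refl G σ k ℓ v
  -- the set of new minima is nonempty
  set N : Set ℕ := {j : ℕ | 1 ≤ j ∧ j ≤ s ∧ ∀ i < j, σ.lt (x j) (x i)} with hN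
  have hsN : s ∈ N := ⟨hs, le_rfl, fun i hi => by rw [h3]; exact h6 i hi⟩
  have hex : ∃ j, j ∈ N := ⟨s, hsN⟩
  set j₁ := Nat.find hex with hj₁
  have hj₁N : j₁ ∈ N := Nat.find_spec hex
  have hmin : ∀ j < j₁, j ∉ N := fun j hj => Nat.find_min hex hj
  obtain ⟨ha, hb, hc⟩ := hj₁N
  refine ⟨x j₁, ?_, ?_⟩
  · refine ⟨j₁, x, hb.trans h1, h2, rfl, fun i hi => h4 i (by omega),
      fun i hi j hj => h5 i (by omega) j (by omega), hc, ?_⟩
    have hsub : {j : ℕ | 1 ≤ j ∧ j ≤ j₁ ∧ ∀ i < j, σ.lt (x j) (x i)} ⊆ {j₁} := by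
      rintro j ⟨hj1, hj2, hj3⟩
      simp only [Set.mem_singleton_iff]
      by_contra hne
      exact hmin j (by omega) ⟨hj1, by omega, hj3⟩
    calc _ ≤ ({j₁} : Set ℕ).ncard := Set.ncard_le_ncard hsub (Set.finite_singleton _)
      _ = 1 := Set.ncard_singleton _
  · refine ⟨s - j₁, fun i => x (j₁ + i), by omega, by simp, ?_, ?_, ?_, ?_, ?_⟩
    · show x (j₁ + (s - j₁)) = u
      rw [← h3]; congr 1; omega
    · intro i hi
      exact h4 (j₁ + i) (by omega)
    · intro i hi j hj hij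
      have := h5 (j₁ + i) (by omega) (j₁ + j) (by omega) hij
      omega
    · intro i hi
      exact h6 (j₁ + i) (by omega)
    · -- number of new minima drops by one
      have hsub : (fun j => j₁ + j) ''
          {j : ℕ | 1 ≤ j ∧ j ≤ s - j₁ ∧ ∀ i < j, σ.lt (x (j₁ + j)) (x (j₁ + i))} ⊆ N \ {j₁} := by
        rintro _ ⟨j, ⟨hj1, hj2, hj3⟩, rfl⟩
        refine ⟨⟨by simp only; omega, by simp only; omega, ?_⟩, ?_⟩
        · intro i hi
          have hlt : σ.lt (x (j₁ + j)) (x j₁) := by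
            have := hj3 0 (by omega)
            simpa using this
          by_cases hij : i < j₁
          · exact @lt_trans V σ.toPartialOrder.toPreorder _ _ _ hlt (hc i hij)
          · have := hj3 (i - j₁) (by simp only at hi; omega)
            have e : j₁ + (i - j₁) = i := by omega
            rw [e] at this
            exact this
        · simp only [Set.mem_singleton_iff]; omega
      have hNfin : N.Finite := finite_idx s _
      have hcard : (N \ {j₁}).ncard + 1 = N.ncard := Set.ncard_sdiff_singleton_add_one ⟨ha, hb, hc⟩ hNfin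
      have h8 := Set.ncard_le_ncard hsub hNfin.sdiff
      rw [Set.ncard_image_of_injective _ (fun a b hab => by simpa using hab)] at h8
      have h9 : N.ncard ≤ k + 1 := h7
      show Set.ncard {j : ℕ | 1 ≤ j ∧ j ≤ s - j₁ ∧ ∀ i < j, σ.lt (x (j₁ + j)) (x (j₁ + i))} ≤ k
      omega

lemma hopReach_zero {ℓ : ℕ} {v u : V} (h : HopReach G σ 0 ℓ v u) : u = v := by
  obtain ⟨s, x, h1, h2, h3, h4, h5, h6, h7⟩ := h
  rcases Nat.eq_zero_or_pos s with rfl | hs
  · rw [← h3, h2]
  exfalso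
  have hfin : {j : ℕ | 1 ≤ j ∧ j ≤ s ∧ ∀ i < j, σ.lt (x j) (x i)}.Finite := finite_idx s _
  have : s ∈ {j : ℕ | 1 ≤ j ∧ j ≤ s ∧ ∀ i < j, σ.lt (x j) (x i)} :=
    ⟨hs, le_rfl, fun i hi => by rw [h3]; exact h6 i hi⟩
  have h8 := (Set.ncard_pos hfin).2 ⟨s, this⟩
  omega

lemma ncard_GReach_le [Finite V] {ℓ M : ℕ} (hM : ∀ v, (GReach G σ 1 ℓ v).ncard ≤ M) (k : ℕ)
    (v : V) : (GReach G σ k ℓ v).ncard ≤ M ^ k := by
  classical
  have := Fintype.ofFinite V
  induction k generalizing v with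
  | zero =>
    have : GReach G σ 0 ℓ v ⊆ {v} := fun u hu => hopReach_zero G σ hu
    calc _ ≤ ({v} : Set V).ncard := Set.ncard_le_ncard this (Set.finite_singleton _)
      _ = M ^ 0 := by simp
  | succ k ih =>
    have hsub : GReach G σ (k + 1) ℓ v ⊆
        ↑((GReach G σ 1 ℓ v).toFinset.biUnion (fun w => (GReach G σ k ℓ w).toFinset)) := by
      intro u hu
      obtain ⟨w, hw1, hw2⟩ := hopReach_succ G σ hu
      simp only [Finset.coe_biUnion, Set.coe_toFinset, Set.mem_iUnion]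
      exact ⟨w, hw1, hw2⟩
    have h1 := Set.ncard_le_ncard hsub (Finset.finite_toSet _)
    rw [Set.ncard_coe_finset] at h1
    have h2 := Finset.card_biUnion_le_card_mul (GReach G σ 1 ℓ v).toFinset
      (fun w => (GReach G σ k ℓ w).toFinset) (M ^ k)
      (fun w _ => by rw [← Set.ncard_eq_toFinset_card']; exact ih w)
    rw [← Set.ncard_eq_toFinset_card'] at h2
    calc _ ≤ _ := h1
      _ ≤ _ := h2
      _ ≤ M * M ^ k := Nat.mul_le_mul_right _ (hM v)
      _ = M ^ (k + 1) := by ring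

end Basic

/-! ### Tree closures of ordered graphs -/

section Closure

variable {P : Type} [LinearOrder P] (Q : SimpleGraph P) (B : ℕ)

/-- Vertices of the tree closure: a position `p : P` with a word indexed by the positions below
`p` (padded by `0`). -/
def TV (P : Type) [LinearOrder P] (B : ℕ) : Type :=
  {x : P × (P → Fin (B + 1)) // ∀ q, x.1 ≤ q → x.2 q = 0}

instance [Finite P] : Finite (TV P B) := by
  unfold TV
  infer_instance

/-- The tree closure of the ordered graph `Q`. -/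
def TG : SimpleGraph (TV P B) where
  Adj x y := Q.Adj x.1.1 y.1.1 ∧ ∀ q, q < x.1.1 → q < y.1.1 → x.1.2 q = y.1.2 q
  symm := ⟨fun _ _ h => ⟨h.1.symm, fun q h1 h2 => (h.2 q h2 h1).symm⟩⟩
  loopless := ⟨fun _ h => Q.irrefl h.1⟩

/-- The vertex at position `p` of the branch `w`. -/
def tr (w : P → Fin (B + 1)) (p : P) : TV P B :=
  ⟨(p, fun q => if q < p then w q else 0), fun q hq => by
    have : ¬ q < p := not_lt.2 hq
    simp [this]⟩

lemma tv_ext {x y : TV P B} (h1 : x.1.1 = y.1.1) (h2 : ∀ q, q < x.1.1 → x.1.2 q = y.1.2 q) :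
    x = y := by
  apply Subtype.ext
  apply Prod.ext h1
  funext q
  by_cases hq : q < x.1.1
  · exact h2 q hq
  · rw [x.2 q (not_lt.1 hq), y.2 q (by rw [← h1]; exact not_lt.1 hq)]

/-- Either some vertex strongly reaches many vertices, or there is a branch along which the order
`σ` respects the order of `P` for positions connected by short upward paths. -/
lemma exists_branch [Finite P] (σ : LinearOrder (TV P B)) (ℓ : ℕ) :
    (∃ v, B + 1 ≤ (GReach (TG Q B) σ 1 ℓ v).ncard) ∨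
    ∃ w : P → Fin (B + 1), ∀ (s : ℕ) (X : ℕ → P), 1 ≤ s → s ≤ ℓ →
      (∀ i < s, Q.Adj (X i) (X (i + 1))) → (∀ i ≤ s, ∀ j ≤ s, X i = X j → i = j) →
      (∀ i, 1 ≤ i → i ≤ s → X 0 < X i) → σ.lt (tr B w (X 0)) (tr B w (X s)) := by
  classical
  set Good : TV P B → Fin (B + 1) → Prop := fun v b =>
    ∀ (s : ℕ) (f : ℕ → TV P B), 1 ≤ s → s ≤ ℓ → f 0 = v →
      (∀ i < s, (TG Q B).Adj (f i) (f (i + 1))) → (∀ i ≤ s, ∀ j ≤ s, f i = f j → i = j) →
      (∀ i, 1 ≤ i → i ≤ s → v.1.1 < (f i).1.1 ∧ (f i).1.2 v.1.1 = b) → σ.lt v (f s) with hGood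
  by_cases hall : ∀ v, ∃ b, Good v b
  · right
    choose b hb using hall
    -- the branch
    let F : ∀ p : P, (∀ q, q < p → Fin (B + 1)) → Fin (B + 1) := fun p ih =>
      b ⟨(p, fun q => if h : q < p then ih q h else 0), fun q hq => by
        have : ¬ q < p := not_lt.2 hq
        simp [this]⟩
    let w : P → Fin (B + 1) := (wellFounded_lt : WellFounded ((· < ·) : P → P → Prop)).fix F
    have hw : ∀ p, w p = b (tr B w p) := by
      intro p
      have h1 : w p = F p (fun q _ => w q) := WellFounded.fix_eq _ _ _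
      rw [h1]
      simp only [F, tr, dite_eq_ite]
    refine ⟨w, ?_⟩
    intro s X hs1 hs2 hadj hinj hup
    have := hb (tr B w (X 0)) s (fun i => tr B w (X i)) hs1 hs2 rfl ?_ ?_ ?_
    · exact this
    · intro i hi
      refine ⟨hadj i hi, ?_⟩
      intro q hq1 hq2
      have e1 : q < X i := hq1
      have e2 : q < X (i + 1) := hq2
      show (if q < X i then w q else 0) = (if q < X (i + 1) then w q else 0)
      rw [if_pos e1, if_pos e2]
    · intro i hi j hj hij
      apply hinj i hi j hj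
      exact congrArg (fun z : TV P B => z.1.1) hij
    · intro i hi1 hi2
      refine ⟨hup i hi1 hi2, ?_⟩
      have e : X 0 < X i := hup i hi1 hi2
      rw [← hw]
      show (if X 0 < X i then w (X 0) else 0) = w (X 0)
      rw [if_pos e]
  · left
    push Not at hall
    obtain ⟨v, hv⟩ := hall
    refine ⟨v, ?_⟩
    have key : ∀ b : Fin (B + 1), ∃ z : TV P B, z ∈ GReach (TG Q B) σ 1 ℓ v ∧ z.1.2 v.1.1 = b := by
      intro b
      have hb := hv b
      simp only [hGood, not_forall] at hb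
      obtain ⟨s, f, hs1, hs2, hf0, hadj, hinj, hup, hlt⟩ := hb
      have hex : ∃ i, 1 ≤ i ∧ i ≤ s ∧ ¬ σ.lt v (f i) := ⟨s, hs1, le_rfl, hlt⟩
      set i₀ := Nat.find hex with hi₀
      obtain ⟨h1, h2, h3⟩ := Nat.find_spec hex
      have hmin : ∀ j, 1 ≤ j → j < i₀ → σ.lt v (f j) := by
        intro j hj1 hj2
        by_contra hcon
        exact Nat.find_min hex hj2 ⟨hj1, by omega, hcon⟩
      have hne : f i₀ ≠ v := by
        intro h
        have := (hup i₀ h1 h2).1
        rw [h] at this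
        exact lt_irrefl _ this
      have hlt' : σ.lt (f i₀) v := by
        rcases @lt_trichotomy _ σ (f i₀) v with h | h | h
        · exact h
        · exact absurd h hne
        · exact absurd h h3
      refine ⟨f i₀, ⟨i₀, f, h2.trans hs2, hf0, rfl, fun i hi => hadj i (by omega),
        fun i hi j hj => hinj i (by omega) j (by omega), ?_, ?_⟩, (hup i₀ h1 h2).2⟩
      · intro i hi
        rcases Nat.eq_zero_or_pos i with rfl | hipos
        · rw [hf0]; exact hlt'
        · exact @lt_trans _ σ.toPartialOrder.toPreorder _ _ _ hlt' (hmin i hipos hi)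
      · have hsub : {j : ℕ | 1 ≤ j ∧ j ≤ i₀ ∧ ∀ i < j, σ.lt (f j) (f i)} ⊆ {i₀} := by
          rintro j ⟨hj1, hj2, hj3⟩
          simp only [Set.mem_singleton_iff]
          by_contra hne'
          have h4 := hj3 0 (by omega)
          rw [hf0] at h4
          have h5 := hmin j hj1 (by omega)
          exact @lt_asymm _ σ.toPartialOrder.toPreorder _ _ h4 h5
        calc _ ≤ ({i₀} : Set ℕ).ncard := Set.ncard_le_ncard hsub (Set.finite_singleton _)
          _ = 1 := Set.ncard_singleton _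
    choose z hz1 hz2 using key
    have hzinj : Function.Injective z := by
      intro b b' h
      rw [← hz2 b, ← hz2 b', h]
    have hsub : Set.range z ⊆ GReach (TG Q B) σ 1 ℓ v := by
      rintro _ ⟨b, rfl⟩
      exact hz1 b
    have h1 := Set.ncard_le_ncard hsub (Set.toFinite _)
    rw [← Set.image_univ, Set.ncard_image_of_injective _ hzinj, Set.ncard_univ] at h1
    simpa using h1

/-- Paths of the ordered graph `Q` lift to the branch `w`. -/
lemma hopReach_of_path (σ : LinearOrder (TV P B)) (ℓ k : ℕ) (w : P → Fin (B + 1))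
    (hw : ∀ (s : ℕ) (X : ℕ → P), 1 ≤ s → s ≤ ℓ →
      (∀ i < s, Q.Adj (X i) (X (i + 1))) → (∀ i ≤ s, ∀ j ≤ s, X i = X j → i = j) →
      (∀ i, 1 ≤ i → i ≤ s → X 0 < X i) → σ.lt (tr B w (X 0)) (tr B w (X s)))
    (s : ℕ) (X : ℕ → P) (hs : s ≤ ℓ) (hadj : ∀ i < s, Q.Adj (X i) (X (i + 1)))
    (hinj : ∀ i ≤ s, ∀ j ≤ s, X i = X j → i = j) (hend : ∀ i < s, X s < X i)
    (hcount : {t : ℕ | 1 ≤ t ∧ t ≤ s ∧ X t < X (t - 1)}.ncard ≤ k) :
    HopReach (TG Q B) σ k ℓ (tr B w (X 0)) (tr B w (X s)) := by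
  classical
  refine ⟨s, fun i => tr B w (X i), hs, rfl, rfl, ?_, ?_, ?_, ?_⟩
  · intro i hi
    refine ⟨hadj i hi, ?_⟩
    intro q hq1 hq2
    have e1 : q < X i := hq1
    have e2 : q < X (i + 1) := hq2
    show (if q < X i then w q else 0) = (if q < X (i + 1) then w q else 0)
    rw [if_pos e1, if_pos e2]
  · intro i hi j hj hij
    apply hinj i hi j hj
    exact congrArg (fun z : TV P B => z.1.1) hij
  · intro i hi
    have := hw (s - i) (fun t => X (s - t)) (by omega) (by omega) ?_ ?_ ?_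
    · simp only [Nat.sub_zero] at this
      have e : s - (s - i) = i := by omega
      rw [e] at this
      exact this
    · intro t ht
      have e : s - t = (s - (t + 1)) + 1 := by omega
      show Q.Adj (X (s - t)) (X (s - (t + 1)))
      rw [e]
      exact (hadj _ (by omega)).symm
    · intro a ha b hb hab
      have := hinj (s - a) (by omega) (s - b) (by omega) hab
      omega
    · intro t ht1 ht2
      show X (s - 0) < X (s - t)
      rw [Nat.sub_zero]
      exact hend _ (by omega)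
  · have hsub : {j : ℕ | 1 ≤ j ∧ j ≤ s ∧ ∀ i < j, σ.lt (tr B w (X j)) (tr B w (X i))} ⊆
        {t : ℕ | 1 ≤ t ∧ t ≤ s ∧ X t < X (t - 1)} := by
      rintro j ⟨hj1, hj2, hj3⟩
      refine ⟨hj1, hj2, ?_⟩
      by_contra hcon
      have hne : X (j - 1) ≠ X j := by
        intro h
        have := hinj (j - 1) (by omega) j hj2 h
        omega
      have hlt : X (j - 1) < X j := lt_of_le_of_ne (not_lt.1 hcon) hne
      have h1 := hw 1 (fun t => X (j - 1 + t)) le_rfl (by omega) ?_ ?_ ?_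
      · have h2 := hj3 (j - 1) (by omega)
        have e : j - 1 + 1 = j := by omega
        simp only [Nat.add_zero, e] at h1
        exact @lt_asymm _ σ.toPartialOrder.toPreorder _ _ h1 h2
      · intro i hi
        have : i = 0 := by omega
        subst this
        exact hadj (j - 1) (by omega)
      · intro a ha b hb hab
        have := hinj (j - 1 + a) (by omega) (j - 1 + b) (by omega) hab
        omega
      · intro i hi1 hi2
        have : i = 1 := by omega
        subst this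
        have e : j - 1 + 1 = j := by omega
        simp only [Nat.add_zero, e]
        exact hlt
    exact (Set.ncard_le_ncard hsub (finite_idx s _)).trans hcount

end Closure

/-! ### The ordered dyadic tree -/

/-- Positions: pairs `(n, r)` with `n < 2 ^ D` and `r ≤ D` (standing for the dyadic interval
`[n, n + 2 ^ r)`), where lexicographically larger pairs are smaller. -/
abbrev DP (D : ℕ) : Type := (Fin (2 ^ D) ×ₗ Fin (D + 1))ᵒᵈ

/-- first coordinate of a position -/
def nn {D : ℕ} (p : DP D) : ℕ := ((ofLex (OrderDual.ofDual p)).1 : ℕ)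

/-- second coordinate of a position -/
def rr {D : ℕ} (p : DP D) : ℕ := ((ofLex (OrderDual.ofDual p)).2 : ℕ)

/-- the position with given coordinates -/
def mkP (D n r : ℕ) (hn : n < 2 ^ D) (hr : r ≤ D) : DP D :=
  OrderDual.toDual (toLex (⟨n, hn⟩, ⟨r, Nat.lt_succ_of_le hr⟩))

@[simp] lemma nn_mkP (D n r : ℕ) (hn : n < 2 ^ D) (hr : r ≤ D) : nn (mkP D n r hn hr) = n := rfl

@[simp] lemma rr_mkP (D n r : ℕ) (hn : n < 2 ^ D) (hr : r ≤ D) : rr (mkP D n r hn hr) = r := rfl

lemma dp_lt {D : ℕ} (p q : DP D) : p < q ↔ nn q < nn p ∨ (nn q = nn p ∧ rr q < rr p) := by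
  have h1 : p < q ↔ OrderDual.ofDual q < OrderDual.ofDual p := Iff.rfl
  rw [h1, Prod.Lex.lt_iff]
  constructor
  · rintro (h | ⟨h, h'⟩)
    · left; exact h
    · right; exact ⟨congrArg Fin.val h, h'⟩
  · rintro (h | ⟨h, h'⟩)
    · left; exact h
    · right; exact ⟨Fin.ext h, h'⟩

lemma dp_ext {D : ℕ} {p q : DP D} (h1 : nn p = nn q) (h2 : rr p = rr q) : p = q := by
  have : ofLex (OrderDual.ofDual p) = ofLex (OrderDual.ofDual q) :=
    Prod.ext (Fin.ext h1) (Fin.ext h2)
  exact this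

lemma dp_le {D : ℕ} {p q : DP D} (h : p ≤ q) : nn q < nn p ∨ (nn q = nn p ∧ rr q ≤ rr p) := by
  rcases lt_or_eq_of_le h with h | rfl
  · rcases (dp_lt p q).1 h with h | ⟨h, h'⟩
    · left; exact h
    · right; exact ⟨h, h'.le⟩
  · right; exact ⟨rfl, le_rfl⟩

/-- `q` is a child of `p` in the dyadic tree. -/
def Child {D : ℕ} (p q : DP D) : Prop :=
  rr p = rr q + 1 ∧ 2 ^ (rr p) ∣ nn p ∧ (nn q = nn p ∨ nn q = nn p + 2 ^ (rr q))

/-- The dyadic tree. -/
def QD (D : ℕ) : SimpleGraph (DP D) where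
  Adj p q := Child p q ∨ Child q p
  symm := ⟨fun _ _ h => h.symm⟩
  loopless := ⟨fun p h => by
    rcases h with h | h <;> · have := h.1; omega⟩

/-- The positions below `v` that can be reached from `v` within `a` steps through positions
above `v`, up to a superset. -/
def Low {D : ℕ} (a : ℕ) (v : DP D) : Set (DP D) :=
  {u | u < v ∧ rr u ≤ rr v + a ∧ rr v ≤ rr u + a ∧ ∃ y, v ≤ y ∧ (QD D).Adj y u}

lemma low_cases {D : ℕ} {a : ℕ} {v u : DP D} (h : u ∈ Low a v) :
    (nn u = nn v ∧ rr u = rr v + 1) ∨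
      nn u = 2 ^ (rr u + 1) * (nn v / 2 ^ (rr u + 1)) + 2 ^ (rr u) := by
  obtain ⟨h1, -, -, y, hy, hyu⟩ := h
  have hy' := dp_le hy
  have h1' := (dp_lt u v).1 h1
  rcases hyu with ⟨e1, e2, e3 | e3⟩ | ⟨e1, e2, e3 | e3⟩
  · -- u = (n, r), y = (n, r + 1): impossible
    exfalso
    rcases hy' with hy' | hy' <;> rcases h1' with h1' | h1' <;> omega
  · -- u = (n + 2 ^ r, r), y = (n, r + 1)
    right
    have hle : nn y ≤ nn v := by rcases hy' with hy' | hy' <;> omega
    have hle' : nn v ≤ nn u := by rcases h1' with h1' | h1' <;> omega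
    rw [e1] at e2
    obtain ⟨c, hc⟩ := e2
    have hpos : 0 < 2 ^ (rr u) := by positivity
    have hpow : 2 ^ (rr u + 1) = 2 * 2 ^ (rr u) := by ring
    have hdiv : nn v / 2 ^ (rr u + 1) = c := by
      rw [Nat.div_eq_iff (by positivity)]
      constructor
      · calc c * 2 ^ (rr u + 1) = nn y := by rw [hc]; ring
          _ ≤ nn v := hle
      · have : nn v ≤ c * 2 ^ (rr u + 1) + 2 ^ (rr u) := by
          calc nn v ≤ nn u := hle'
            _ = c * 2 ^ (rr u + 1) + 2 ^ (rr u) := by rw [e3, hc]; ring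
        omega
    rw [hdiv, e3, hc]
  · -- y = (n, r), u = (n, r + 1)
    left
    rcases hy' with hy' | hy' <;> rcases h1' with h1' | h1' <;> omega
  · exfalso
    have hpos : 0 < 2 ^ (rr y) := by positivity
    rcases hy' with hy' | hy' <;> rcases h1' with h1' | h1' <;> omega

lemma ncard_low_le {D : ℕ} (a : ℕ) (v : DP D) : (Low a v).ncard ≤ 2 * a + 2 := by
  classical
  set S₁ : Set (DP D) := {u | nn u = nn v ∧ rr u = rr v + 1} with hS₁
  set S₂ : Set (DP D) := {u | (rr u ≤ rr v + a ∧ rr v ≤ rr u + a) ∧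
    nn u = 2 ^ (rr u + 1) * (nn v / 2 ^ (rr u + 1)) + 2 ^ (rr u)} with hS₂
  have hsub : Low a v ⊆ S₁ ∪ S₂ := by
    intro u hu
    rcases low_cases hu with h | h
    · left; exact h
    · right; exact ⟨⟨hu.2.1, hu.2.2.1⟩, h⟩
  have h1 : S₁.ncard ≤ 1 := by
    rw [Set.ncard_le_one (Set.toFinite _)]
    rintro x ⟨hx1, hx2⟩ y ⟨hy1, hy2⟩
    exact dp_ext (hx1.trans hy1.symm) (hx2.trans hy2.symm)
  have h2 : S₂.ncard ≤ 2 * a + 1 := by
    have hinj : Set.InjOn rr S₂ := by
      rintro x ⟨-, hx⟩ y ⟨-, hy⟩ hxy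
      apply dp_ext _ hxy
      rw [hx, hy, hxy]
    have h3 : rr '' S₂ ⊆ Set.Icc (rr v - a) (rr v + a) := by
      rintro _ ⟨x, ⟨⟨hx1, hx2⟩, -⟩, rfl⟩
      simp only [Set.mem_Icc]
      omega
    rw [← Set.InjOn.ncard_image hinj]
    have h4 := Set.ncard_le_ncard h3 (Set.finite_Icc _ _)
    have h5 : (Set.Icc (rr v - a) (rr v + a)).ncard ≤ 2 * a + 1 := by
      rw [← Finset.coe_Icc, Set.ncard_coe_finset, Nat.card_Icc]
      omega
    omega
  have h3 := Set.ncard_le_ncard hsub (Set.toFinite _)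
  have h4 := Set.ncard_union_le S₁ S₂
  omega

/-- The strong colouring numbers of the tree closures of the dyadic trees are linear. -/
lemma col_le (D B a : ℕ) : gcol 1 a (TG (QD D) B) ≤ 2 * a + 3 := by
  classical
  let e := Finite.equivFin (TV (DP D) B)
  let f : TV (DP D) B → DP D ×ₗ Fin (Nat.card (TV (DP D) B)) := fun x => toLex (x.1.1, e x)
  have hf : Function.Injective f := by
    intro x y hxy
    have : (ofLex (f x)).2 = (ofLex (f y)).2 := by rw [hxy]
    exact e.injective this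
  let σ : LinearOrder (TV (DP D) B) := LinearOrder.lift' f hf
  have hσ : ∀ x y, σ.lt x y → x.1.1 ≤ y.1.1 := by
    intro x y h
    have h' : f x < f y := h
    rw [Prod.Lex.lt_iff] at h'
    rcases h' with h' | h'
    · exact le_of_lt h'
    · exact le_of_eq h'.1
  refine (ciInf_le (OrderBot.bddBelow _) σ).trans ?_
  refine ciSup_le' ?_
  intro v
  have hsub : GReach (TG (QD D) B) σ 1 a v ⊆
      insert v {u | u.1.1 ∈ Low a v.1.1 ∧ ∀ q, q < u.1.1 → u.1.2 q = v.1.2 q} := by
    rintro u ⟨s, x, hs, h0, hsu, hadj, hinj, hend, hcnt⟩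
    rcases Nat.eq_zero_or_pos s with rfl | hspos
    · left
      rw [← hsu, h0]
    right
    -- intermediate vertices are larger than `v`
    have hbig : ∀ i, 1 ≤ i → i < s → σ.lt v (x i) := by
      intro i hi1 hi2
      by_contra hcon
      have hex : ∃ j, 1 ≤ j ∧ j < s ∧ ¬ σ.lt v (x j) := ⟨i, hi1, hi2, hcon⟩
      set j₀ := Nat.find hex with hj₀
      obtain ⟨ha, hb, hc⟩ := Nat.find_spec hex
      have hmin : ∀ j, 1 ≤ j → j < j₀ → σ.lt v (x j) := by
        intro j hj1 hj2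
        by_contra hcon
        exact Nat.find_min hex hj2 ⟨hj1, by omega, hcon⟩
      have hne : x j₀ ≠ v := by
        rw [← h0]
        intro h
        have := hinj j₀ (by omega) 0 (by omega) h
        omega
      have hlt : σ.lt (x j₀) v := by
        rcases @lt_trichotomy _ σ (x j₀) v with h | h | h
        · exact h
        · exact absurd h hne
        · exact absurd h hc
      have hj₀mem : j₀ ∈ {j : ℕ | 1 ≤ j ∧ j ≤ s ∧ ∀ i < j, σ.lt (x j) (x i)} := by
        refine ⟨ha, by omega, ?_⟩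
        intro i hi
        rcases Nat.eq_zero_or_pos i with rfl | hipos
        · rw [h0]; exact hlt
        · exact @lt_trans _ σ.toPartialOrder.toPreorder _ _ _ hlt (hmin i hipos hi)
      have hsmem : s ∈ {j : ℕ | 1 ≤ j ∧ j ≤ s ∧ ∀ i < j, σ.lt (x j) (x i)} :=
        ⟨hspos, le_rfl, fun i hi => by rw [hsu]; exact hend i hi⟩
      have h2 := (Set.ncard_le_one (finite_idx s _)).1 hcnt j₀ hj₀mem s hsmem
      omega
    -- all intermediate vertices lie in the subtree of `v`
    have hsubt : ∀ i, i < s → v.1.1 ≤ (x i).1.1 ∧ (∀ q, q < v.1.1 → (x i).1.2 q = v.1.2 q) ∧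
        rr (x i).1.1 ≤ rr v.1.1 + i ∧ rr v.1.1 ≤ rr (x i).1.1 + i := by
      intro i
      induction i with
      | zero =>
        intro _
        rw [h0]
        exact ⟨le_rfl, fun _ _ => rfl, le_rfl, le_rfl⟩
      | succ i ih =>
        intro hi
        obtain ⟨ih1, ih2, ih3, ih4⟩ := ih (by omega)
        have hb := hbig (i + 1) (by omega) hi
        have hle := hσ _ _ hb
        obtain ⟨hQ, hw⟩ := hadj i (by omega)
        refine ⟨hle, ?_, ?_, ?_⟩
        · intro q hq
          rw [← hw q (lt_of_lt_of_le hq ih1) (lt_of_lt_of_le hq hle)]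
          exact ih2 q hq
        · rcases hQ with hQ | hQ <;> · have := hQ.1; omega
        · rcases hQ with hQ | hQ <;> · have := hQ.1; omega
    obtain ⟨g1, g2, g3, g4⟩ := hsubt (s - 1) (by omega)
    have hlast := hadj (s - 1) (by omega)
    have es : s - 1 + 1 = s := by omega
    rw [es, hsu] at hlast
    obtain ⟨hQ, hw⟩ := hlast
    have huv : σ.lt u v := by
      have := hend 0 hspos
      rwa [h0] at this
    have hle := hσ _ _ huv
    have hne : u.1.1 ≠ v.1.1 := by
      intro h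
      have : u = v := by
        apply tv_ext B h
        intro q hq
        have hq' : q < v.1.1 := by rw [← h]; exact hq
        rw [← hw q (lt_of_lt_of_le hq' g1) hq]
        exact g2 q hq'
      rw [this] at huv
      exact @lt_irrefl _ σ.toPartialOrder.toPreorder _ huv
    have hlt : u.1.1 < v.1.1 := lt_of_le_of_ne hle hne
    refine ⟨⟨hlt, ?_, ?_, (x (s - 1)).1.1, g1, hQ⟩, ?_⟩
    · rcases hQ with hQ | hQ <;> · have := hQ.1; omega
    · rcases hQ with hQ | hQ <;> · have := hQ.1; omega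
    · intro q hq
      rw [← hw q (lt_of_lt_of_le (hq.trans hlt) g1) hq]
      exact g2 q (hq.trans hlt)
  have h1 := Set.ncard_le_ncard hsub (Set.toFinite _)
  have h2 := Set.ncard_insert_le v
    {u : TV (DP D) B | u.1.1 ∈ Low a v.1.1 ∧ ∀ q, q < u.1.1 → u.1.2 q = v.1.2 q}
  have h3 : {u : TV (DP D) B | u.1.1 ∈ Low a v.1.1 ∧ ∀ q, q < u.1.1 → u.1.2 q = v.1.2 q}.ncard
      ≤ (Low a v.1.1).ncard := by
    apply Set.ncard_le_ncard_of_injOn (fun u => u.1.1)
    · rintro u ⟨hu, -⟩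
      exact hu
    · rintro u ⟨-, hu⟩ u' ⟨-, hu'⟩ huu'
      apply tv_ext B huu'
      intro q hq
      have hq' : q < u'.1.1 := lt_of_lt_of_eq hq huu'
      rw [hu q hq, hu' q hq']
  have h4 := ncard_low_le a v.1.1
  omega

/-! ### Long monotone branches: the lower bound -/

/-- the integer collecting the bits of `Z` that are at least `r` -/
def bits (Z : Finset ℕ) (r : ℕ) : ℕ := ∑ i ∈ Z.filter (fun i => r ≤ i), 2 ^ i

lemma bits_lt (Z : Finset ℕ) (r D : ℕ) (hZ : ∀ i ∈ Z, i < D) : bits Z r < 2 ^ D := by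
  unfold bits
  apply Nat.geomSum_lt le_rfl
  intro k hk
  exact hZ k (Finset.mem_filter.1 hk).1

lemma bits_succ (Z : Finset ℕ) (r : ℕ) :
    bits Z r = bits Z (r + 1) + (if r ∈ Z then 2 ^ r else 0) := by
  unfold bits
  split_ifs with h
  · have : Z.filter (fun i => r ≤ i) = insert r (Z.filter (fun i => r + 1 ≤ i)) := by
      ext i
      simp only [Finset.mem_filter, Finset.mem_insert]
      constructor
      · rintro ⟨h1, h2⟩
        by_cases hi : i = r
        · left; exact hi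
        · right; exact ⟨h1, by omega⟩
      · rintro (rfl | ⟨h1, h2⟩)
        · exact ⟨h, le_rfl⟩
        · exact ⟨h1, by omega⟩
    rw [this, Finset.sum_insert (by simp)]
    ring
  · have : Z.filter (fun i => r ≤ i) = Z.filter (fun i => r + 1 ≤ i) := by
      ext i
      simp only [Finset.mem_filter]
      constructor
      · rintro ⟨h1, h2⟩
        refine ⟨h1, ?_⟩
        rcases Nat.lt_or_ge r i with h3 | h3
        · exact h3
        · have : i = r := by omega
          subst this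
          exact absurd h1 h
      · rintro ⟨h1, h2⟩
        exact ⟨h1, by omega⟩
    rw [this]
    ring

lemma dvd_bits (Z : Finset ℕ) (r : ℕ) : 2 ^ r ∣ bits Z r := by
  unfold bits
  apply Finset.dvd_sum
  intro i hi
  exact pow_dvd_pow 2 (Finset.mem_filter.1 hi).2

lemma bits_anti (Z : Finset ℕ) {r r' : ℕ} (h : r ≤ r') : bits Z r' ≤ bits Z r := by
  unfold bits
  apply Finset.sum_le_sum_of_subset
  intro i hi
  simp only [Finset.mem_filter] at hi ⊢
  exact ⟨hi.1, h.trans hi.2⟩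

/-- The tree closure of the dyadic tree of depth `ℓ` has large hop colouring numbers. -/
lemma le_gcol (k ℓ : ℕ) (hk : 1 ≤ k) :
    Nat.choose ℓ k ≤ gcol k ℓ (TG (QD ℓ) (Nat.choose ℓ k)) := by
  classical
  set B := Nat.choose ℓ k with hB
  have : Nonempty (LinearOrder (TV (DP ℓ) B)) := ⟨linearOrderOfSTO WellOrderingRel⟩
  refine le_ciInf ?_
  intro σ
  have hbdd : BddAbove (Set.range fun v => (GReach (TG (QD ℓ) B) σ k ℓ v).ncard) :=
    (Set.finite_range _).bddAbove
  rcases exists_branch (QD ℓ) B σ ℓ with ⟨v, hv⟩ | ⟨w, hw⟩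
  · refine le_ciSup_of_le hbdd v ?_
    have hsub : GReach (TG (QD ℓ) B) σ 1 ℓ v ⊆ GReach (TG (QD ℓ) B) σ k ℓ v :=
      fun u hu => hopReach_mono _ σ hk le_rfl hu
    have := Set.ncard_le_ncard hsub (Set.toFinite _)
    omega
  · -- the path given by `Z`
    let root : DP ℓ := mkP ℓ 0 ℓ (by positivity) le_rfl
    refine le_ciSup_of_le hbdd (tr B w root) ?_
    let X : Finset ℕ → ℕ → DP ℓ := fun Z t =>
      if hZ : ∀ i ∈ Z, i < ℓ then mkP ℓ (bits Z (ℓ - t)) (ℓ - t) (bits_lt Z _ ℓ hZ) (Nat.sub_le _ _)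
      else root
    have hXn : ∀ Z t, (∀ i ∈ Z, i < ℓ) → nn (X Z t) = bits Z (ℓ - t) := by
      intro Z t hZ
      simp only [X, dif_pos hZ, nn_mkP]
    have hXr : ∀ Z t, (∀ i ∈ Z, i < ℓ) → rr (X Z t) = ℓ - t := by
      intro Z t hZ
      simp only [X, dif_pos hZ, rr_mkP]
    have hmem : ∀ Z ∈ Finset.powersetCard k (Finset.range ℓ),
        (∀ i ∈ Z, i < ℓ) ∧ Z.card = k ∧ Z.Nonempty := by
      intro Z hZ
      rw [Finset.mem_powersetCard] at hZ
      refine ⟨fun i hi => Finset.mem_range.1 (hZ.1 hi), hZ.2, ?_⟩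
      rw [← Finset.card_pos]
      omega
    let sZ : Finset ℕ → ℕ := fun Z => if h : Z.Nonempty then ℓ - Z.min' h else 0
    have hreach : ∀ Z ∈ Finset.powersetCard k (Finset.range ℓ),
        tr B w (X Z (sZ Z)) ∈ GReach (TG (QD ℓ) B) σ k ℓ (tr B w root) := by
      intro Z hZ
      obtain ⟨hlt, hcard, hne⟩ := hmem Z hZ
      have hs : sZ Z = ℓ - Z.min' hne := by simp only [sZ, dif_pos hne]
      have hminmem := Z.min'_mem hne
      have hminlt := hlt _ hminmem
      have hroot : root = X Z 0 := by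
        apply dp_ext
        · rw [hXn Z 0 hlt]
          show 0 = bits Z (ℓ - 0)
          unfold bits
          rw [Finset.sum_eq_zero]
          intro i hi
          have := hlt i (Finset.mem_filter.1 hi).1
          have := (Finset.mem_filter.1 hi).2
          omega
        · rw [hXr Z 0 hlt]
          rfl
      rw [hroot]
      refine hopReach_of_path (QD ℓ) B σ ℓ k w hw (sZ Z) (X Z) ?_ ?_ ?_ ?_ ?_
      · rw [hs]; exact Nat.sub_le _ _
      · intro i hi
        left
        have e : ℓ - i = (ℓ - (i + 1)) + 1 := by omega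
        refine ⟨?_, ?_, ?_⟩
        · rw [hXr Z _ hlt, hXr Z _ hlt]; omega
        · rw [hXr Z _ hlt, hXn Z _ hlt]; exact dvd_bits Z _
        · rw [hXn Z _ hlt, hXn Z _ hlt, hXr Z _ hlt, e, bits_succ Z (ℓ - (i + 1))]
          split_ifs
          · right; rfl
          · left; rfl
      · intro i hi j hj hij
        have := congrArg rr hij
        rw [hXr Z _ hlt, hXr Z _ hlt] at this
        omega
      · intro i hi
        rw [dp_lt]
        left
        rw [hXn Z _ hlt, hXn Z _ hlt]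
        have e1 : ℓ - sZ Z = Z.min' hne := by omega
        have h1 := bits_succ Z (Z.min' hne)
        rw [if_pos hminmem] at h1
        have h2 : bits Z (ℓ - i) ≤ bits Z (Z.min' hne + 1) := bits_anti Z (by omega)
        have h3 : 0 < 2 ^ (Z.min' hne) := by positivity
        rw [e1]
        omega
      · have hsub : {t : ℕ | 1 ≤ t ∧ t ≤ sZ Z ∧ X Z t < X Z (t - 1)} ⊆
            ↑(Z.image (fun i => ℓ - i)) := by
          rintro t ⟨ht1, ht2, ht3⟩
          rw [dp_lt, hXn Z _ hlt, hXn Z _ hlt, hXr Z _ hlt, hXr Z _ hlt] at ht3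
          have e : ℓ - (t - 1) = (ℓ - t) + 1 := by omega
          rw [e, bits_succ Z (ℓ - t)] at ht3
          have hmemZ : ℓ - t ∈ Z := by
            by_contra hcon
            rw [if_neg hcon] at ht3
            omega
          rw [Finset.mem_coe, Finset.mem_image]
          exact ⟨ℓ - t, hmemZ, by omega⟩
        have h1 := Set.ncard_le_ncard hsub (Finset.finite_toSet _)
        rw [Set.ncard_coe_finset] at h1
        exact h1.trans (Finset.card_image_le.trans hcard.le)
    have hinj : Set.InjOn (fun Z => tr B w (X Z (sZ Z)))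
        (↑(Finset.powersetCard k (Finset.range ℓ)) : Set (Finset ℕ)) := by
      intro Z hZ Z' hZ' heq
      obtain ⟨hlt, hcard, hne⟩ := hmem Z hZ
      obtain ⟨hlt', hcard', hne'⟩ := hmem Z' hZ'
      have h1 : X Z (sZ Z) = X Z' (sZ Z') := congrArg (fun z : TV (DP ℓ) B => z.1.1) heq
      have h2 := congrArg nn h1
      rw [hXn Z _ hlt, hXn Z' _ hlt'] at h2
      have full : ∀ (Y : Finset ℕ) (hY : Y.Nonempty), (∀ i ∈ Y, i < ℓ) →
          bits Y (ℓ - sZ Y) = ∑ i ∈ Y, 2 ^ i := by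
        intro Y hY hYlt
        have hsY : sZ Y = ℓ - Y.min' hY := by simp only [sZ, dif_pos hY]
        have hm := hYlt _ (Y.min'_mem hY)
        have e1 : ℓ - sZ Y = Y.min' hY := by omega
        unfold bits
        rw [e1]
        congr 1
        apply Finset.filter_true_of_mem
        intro i hi
        exact Y.min'_le i hi
      rw [full Z hne hlt, full Z' hne' hlt'] at h2
      exact Finset.geomSum_injective (le_refl 2) h2
    have hsub : ((fun Z => tr B w (X Z (sZ Z))) ''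
        (↑(Finset.powersetCard k (Finset.range ℓ)) : Set (Finset ℕ))) ⊆
        GReach (TG (QD ℓ) B) σ k ℓ (tr B w root) := by
      rintro _ ⟨Z, hZ, rfl⟩
      exact hreach Z hZ
    have h1 := Set.ncard_le_ncard hsub (Set.toFinite _)
    rw [Set.InjOn.ncard_image hinj, Set.ncard_coe_finset, Finset.card_powersetCard,
      Finset.card_range] at h1
    exact h1

/-! ### Bounded functions have property (P) -/

lemma gcol_mono {V : Type} [Finite V] (G : SimpleGraph V) {k k' : ℕ} (h : k ≤ k') (ℓ : ℕ) :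
    gcol k ℓ G ≤ gcol k' ℓ G := by
  classical
  have : Nonempty (LinearOrder V) := ⟨linearOrderOfSTO WellOrderingRel⟩
  refine le_ciInf ?_
  intro σ
  refine (ciInf_le (OrderBot.bddBelow _) σ).trans ?_
  refine ciSup_le' ?_
  intro v
  have hbdd : BddAbove (Set.range fun v => (GReach G σ k' ℓ v).ncard) :=
    (Set.finite_range _).bddAbove
  refine le_trans ?_ (le_ciSup hbdd v)
  exact Set.ncard_le_ncard (fun u hu => hopReach_mono G σ h le_rfl hu) (Set.toFinite _)

lemma gcol_le_pow {V : Type} [Finite V] (G : SimpleGraph V) (k ℓ : ℕ) :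
    gcol k ℓ G ≤ (gcol 1 ℓ G) ^ k := by
  classical
  have : Nonempty (LinearOrder V) := ⟨linearOrderOfSTO WellOrderingRel⟩
  obtain ⟨σ, hσ⟩ : ∃ σ : LinearOrder V, gcol 1 ℓ G = ⨆ v : V, (GReach G σ 1 ℓ v).ncard := by
    have := Nat.sInf_mem (Set.range_nonempty fun σ : LinearOrder V =>
      ⨆ v : V, (GReach G σ 1 ℓ v).ncard)
    obtain ⟨σ, hσ⟩ := this
    exact ⟨σ, hσ.symm⟩
  refine (ciInf_le (OrderBot.bddBelow _) σ).trans ?_
  refine ciSup_le' ?_
  intro v
  apply ncard_GReach_le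
  intro v
  rw [hσ]
  exact le_ciSup (f := fun v => (GReach G σ 1 ℓ v).ncard) (Set.finite_range _).bddAbove v

/-- The inequality `gcol_{k,ℓ}(G) ≤ col_{ℓ-k+1}(G) * col_1(G) ^ (k-1)` fails for some finite graph
`G`, with `k = 2` and `ℓ = 30`. -/
theorem listed_inequality_fails :
    ∃ (V : Type) (_ : Finite V) (G : SimpleGraph V),
      gcol 1 (30 - 2 + 1) G * gcol 1 1 G ^ (2 - 1) < gcol 2 30 G := by
  refine ⟨TV (DP 30) (Nat.choose 30 2), inferInstance, TG (QD 30) (Nat.choose 30 2), ?_⟩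
  have h1 := col_le 30 (Nat.choose 30 2) 29
  have h2 := col_le 30 (Nat.choose 30 2) 1
  have h3 := le_gcol 2 30 (by norm_num)
  have h4 : Nat.choose 30 2 = 435 := by decide
  have e1 : 30 - 2 + 1 = 29 := rfl
  have e2 : 2 - 1 = 1 := rfl
  rw [e1, e2, pow_one]
  have h5 : gcol 1 29 (TG (QD 30) (Nat.choose 30 2)) * gcol 1 1 (TG (QD 30) (Nat.choose 30 2)) ≤
      61 * 5 := Nat.mul_le_mul h1 h2
  omega

/-- **Characterisation of property (P).**  A function `k` with `1 ≤ k(ℓ) ≤ ℓ` has property (P) if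
and only if it is bounded. -/
theorem main (k : ℕ → ℕ) (hk : ∀ ℓ, 1 ≤ ℓ → 1 ≤ k ℓ ∧ k ℓ ≤ ℓ) :
    PropertyP k ↔ ∃ K : ℕ, ∀ ℓ, 1 ≤ ℓ → k ℓ ≤ K := by
  classical
  constructor
  · intro hP
    by_contra hunb
    push Not at hunb
    -- the class of all graphs with linear strong colouring numbers
    obtain ⟨q, hq⟩ := hP (fun V G => ∀ ℓ, gcol 1 ℓ G ≤ 2 * ℓ + 3)
      ⟨Polynomial.C 2 * Polynomial.X + Polynomial.C 3, by
        intro V _ G hG ℓ _
        simp only [Polynomial.eval_add, Polynomial.eval_mul, Polynomial.eval_C,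
          Polynomial.eval_X]
        exact_mod_cast hG ℓ⟩
    set d := q.natDegree with hd
    have hbound : ∀ ℓ, 1 ≤ ℓ → d + 1 ≤ k ℓ → (Nat.choose ℓ (d + 1) : ℝ) ≤ q.eval (ℓ : ℝ) := by
      intro ℓ hℓ hkℓ
      have h1 := hq (TV (DP ℓ) (Nat.choose ℓ (d + 1))) (TG (QD ℓ) (Nat.choose ℓ (d + 1)))
        (fun a => col_le ℓ _ a) ℓ hℓ
      have h2 := le_gcol (d + 1) ℓ (by omega)
      have h3 := gcol_mono (TG (QD ℓ) (Nat.choose ℓ (d + 1))) hkℓ ℓ
      have h4 : (Nat.choose ℓ (d + 1) : ℝ) ≤ (gcol (k ℓ) ℓ (TG (QD ℓ) (Nat.choose ℓ (d + 1))) : ℝ) := by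
        exact_mod_cast h2.trans h3
      exact h4.trans h1
    -- growth comparison
    have hdeg : q.degree ≤ (Polynomial.X ^ d : Polynomial ℝ).degree := by
      rw [Polynomial.degree_X_pow]
      exact Polynomial.degree_le_natDegree
    obtain ⟨c, hc⟩ := (Polynomial.isBigO_atTop_of_degree_le q (Polynomial.X ^ d) hdeg).bound
    rw [Filter.eventually_atTop] at hc
    obtain ⟨N, hN⟩ := hc
    set F : ℝ := (Nat.factorial (d + 1) : ℝ) with hF
    have hFpos : 0 < F := by rw [hF]; exact_mod_cast Nat.factorial_pos _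
    obtain ⟨K, hK⟩ := exists_nat_gt (max N (|c| * 2 ^ (d + 1) * F))
    obtain ⟨ℓ, hℓ1, hℓ2⟩ := hunb (K + 2 * d + 2)
    have hℓk := (hk ℓ hℓ1).2
    have hlarge : K + 2 * d + 2 < ℓ := by omega
    have hlargeR : (K : ℝ) + 2 * d + 2 < ℓ := by exact_mod_cast hlarge
    have hKN : N < K := (le_max_left _ _).trans_lt hK
    have hKc : |c| * 2 ^ (d + 1) * F < K := (le_max_right _ _).trans_lt hK
    have hd0 : (0 : ℝ) ≤ d := Nat.cast_nonneg _
    have hK0 : (0 : ℝ) ≤ K := Nat.cast_nonneg _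
    have hℓpos : (0 : ℝ) < ℓ := by linarith
    have h1 := hbound ℓ hℓ1 (by omega)
    have h2 := hN (ℓ : ℝ) (by linarith)
    simp only [Polynomial.eval_pow, Polynomial.eval_X, Real.norm_eq_abs] at h2
    rw [abs_of_pos (pow_pos hℓpos d)] at h2
    have h3 : (((ℓ + 1 - (d + 1) : ℕ) : ℝ) ^ (d + 1)) / F ≤ (Nat.choose ℓ (d + 1) : ℝ) := by
      have := Nat.pow_le_choose (α := ℝ) (d + 1) ℓ
      exact_mod_cast this
    have h4 : (ℓ : ℝ) / 2 ≤ ((ℓ + 1 - (d + 1) : ℕ) : ℝ) := by
      rw [div_le_iff₀ (by norm_num)]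
      exact_mod_cast (by omega : ℓ ≤ (ℓ + 1 - (d + 1)) * 2)
    have h5 : ((ℓ : ℝ) / 2) ^ (d + 1) ≤ ((ℓ + 1 - (d + 1) : ℕ) : ℝ) ^ (d + 1) :=
      pow_le_pow_left₀ (by positivity) h4 _
    have h6 : ((ℓ : ℝ) / 2) ^ (d + 1) / F ≤ |c| * (ℓ : ℝ) ^ d := by
      calc ((ℓ : ℝ) / 2) ^ (d + 1) / F ≤ ((ℓ + 1 - (d + 1) : ℕ) : ℝ) ^ (d + 1) / F := by
            gcongr
        _ ≤ (Nat.choose ℓ (d + 1) : ℝ) := h3
        _ ≤ q.eval (ℓ : ℝ) := h1
        _ ≤ |q.eval (ℓ : ℝ)| := le_abs_self _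
        _ ≤ c * (ℓ : ℝ) ^ d := h2
        _ ≤ |c| * (ℓ : ℝ) ^ d := by
            gcongr
            exact le_abs_self c
    rw [div_le_iff₀ hFpos, div_pow, div_le_iff₀ (by positivity), pow_succ] at h6
    have h7 : (ℓ : ℝ) ^ d * ℓ ≤ (ℓ : ℝ) ^ d * (|c| * 2 ^ (d + 1) * F) := by
      calc (ℓ : ℝ) ^ d * ℓ ≤ |c| * (ℓ : ℝ) ^ d * F * 2 ^ (d + 1) := h6
        _ = (ℓ : ℝ) ^ d * (|c| * 2 ^ (d + 1) * F) := by ring
    have h8 : (ℓ : ℝ) ≤ |c| * 2 ^ (d + 1) * F :=
      le_of_mul_le_mul_left h7 (pow_pos hℓpos d)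
    linarith
  · rintro ⟨K, hK⟩ C ⟨p, hp⟩
    refine ⟨(1 + p ^ 2) ^ K, ?_⟩
    intro V _ G hG ℓ hℓ
    have h1 := hp V G hG ℓ hℓ
    have h2 := gcol_le_pow G (k ℓ) ℓ
    have h3 : (gcol (k ℓ) ℓ G : ℝ) ≤ (gcol 1 ℓ G : ℝ) ^ (k ℓ) := by exact_mod_cast h2
    simp only [Polynomial.eval_pow, Polynomial.eval_add, Polynomial.eval_one]
    have h4 : (0 : ℝ) ≤ (gcol 1 ℓ G : ℝ) := Nat.cast_nonneg _
    calc (gcol (k ℓ) ℓ G : ℝ) ≤ (gcol 1 ℓ G : ℝ) ^ (k ℓ) := h3
      _ ≤ (1 + (p.eval (ℓ : ℝ)) ^ 2) ^ (k ℓ) := by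
          apply pow_le_pow_left₀ h4
          nlinarith [sq_nonneg (p.eval (ℓ : ℝ) - 1 / 2)]
      _ ≤ (1 + (p.eval (ℓ : ℝ)) ^ 2) ^ K := by
          apply pow_le_pow_right₀
          · nlinarith [sq_nonneg (p.eval (ℓ : ℝ))]
          · exact hK ℓ hℓ

end Pool.Agent.H29.Hops
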